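import Pool.Agent.Q63.Hel.Tri

/-!
The estimate of the production by a sum over ordered triads: the local triads are estimated by the
helical part with the sign `σ j`, `j` the scale of the triad.
-/

open Set Filter Topology
open scoped ENNReal

namespace Pool.Agent.Q63.Hel

open H459R3.NS Pool.Agent.Q63.Win

/-- the largest and the smallest frequency of a triad -/
def mx (z : K3 × K3) : ℕ := max (N z.1) (max (N z.2) (N (-z.1 - z.2)))

def mn (z : K3 × K3) : ℕ := min (N z.1) (min (N z.2) (N (-z.1 - z.2)))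

/-- the dyadic scale -/
def cl (n : ℕ) : ℕ := Nat.clog 2 n

/-- the local triads -/
def Loc (κ : ℕ → ℕ) (z : K3 × K3) : Prop := κ (cl (mx z)) < mn z

theorem mx_swap (z : K3 × K3) : mx (z.2, z.1) = mx z := by
  unfold mx
  simp only
  rw [show -z.2 - z.1 = -z.1 - z.2 by abel]
  omega

theorem mn_swap (z : K3 × K3) : mn (z.2, z.1) = mn z := by
  unfold mn
  simp only
  rw [show -z.2 - z.1 = -z.1 - z.2 by abel]
  omega

theorem mx_rot (z : K3 × K3) : mx (z.1, -z.1 - z.2) = mx z := by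
  unfold mx
  simp only
  rw [show -z.1 - (-z.1 - z.2) = z.2 by abel]
  omega

theorem mn_rot (z : K3 × K3) : mn (z.1, -z.1 - z.2) = mn z := by
  unfold mn
  simp only
  rw [show -z.1 - (-z.1 - z.2) = z.2 by abel]
  omega

theorem sy_loc (κ : ℕ → ℕ) (σ : ℕ → ℝ) (x : ℝ) : Sy fun z => Loc κ z ∧ σ (cl (mx z)) = x where
  swap z := by
    unfold Loc
    rw [mx_swap, mn_swap]
  rot z := by
    unfold Loc
    rw [mx_rot, mn_rot]

open scoped Classical in
/-- the majorant of the trilinear term -/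
noncomputable def GG (κ : ℕ → ℕ) (e : ℕ → K3 → ℝ) (w : K3 → ℝ) (z : K3 × K3) : ℝ :=
  if Loc κ z then e (cl (mx z)) z.1 * w z.2 * w (-z.1 - z.2)
    + w z.1 * e (cl (mx z)) z.2 * w (-z.1 - z.2) + w z.1 * w z.2 * e (cl (mx z)) (-z.1 - z.2)
  else w z.1 * w z.2 * w (-z.1 - z.2)

theorem GG_nonneg {κ : ℕ → ℕ} {e : ℕ → K3 → ℝ} {w : K3 → ℝ} (he : ∀ j k, 0 ≤ e j k)
    (hw : ∀ k, 0 ≤ w k) (z : K3 × K3) : 0 ≤ GG κ e w z := by
  have a1 := hw z.1
  have a2 := hw z.2
  have a3 := hw (-z.1 - z.2)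
  have b1 := he (cl (mx z)) z.1
  have b2 := he (cl (mx z)) z.2
  have b3 := he (cl (mx z)) (-z.1 - z.2)
  unfold GG
  split_ifs <;> positivity

theorem GG_swap {κ : ℕ → ℕ} {e : ℕ → K3 → ℝ} {w : K3 → ℝ} (z : K3 × K3) :
    GG κ e w (z.2, z.1) = GG κ e w z := by
  have h : Loc κ (z.2, z.1) ↔ Loc κ z := by
    unfold Loc
    rw [mx_swap, mn_swap]
  unfold GG
  simp only [mx_swap]
  rw [show -z.2 - z.1 = -z.1 - z.2 by abel]
  by_cases h0 : Loc κ z
  · rw [if_pos h0, if_pos (h.2 h0)]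
    ring
  · rw [if_neg h0, if_neg fun h1 => h0 (h.1 h1)]
    ring

theorem GG_rot {κ : ℕ → ℕ} {e : ℕ → K3 → ℝ} {w : K3 → ℝ} (z : K3 × K3) :
    GG κ e w (z.1, -z.1 - z.2) = GG κ e w z := by
  have h : Loc κ (z.1, -z.1 - z.2) ↔ Loc κ z := by
    unfold Loc
    rw [mx_rot, mn_rot]
  unfold GG
  simp only [mx_rot]
  rw [show -z.1 - (-z.1 - z.2) = z.2 by abel]
  by_cases h0 : Loc κ z
  · rw [if_pos h0, if_pos (h.2 h0)]
    ring
  · rw [if_neg h0, if_neg fun h1 => h0 (h.1 h1)]
    ring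

/-- the difference of the trilinear terms -/
theorem norm_tt_sub_le {c h e : Fam} (hce : ∀ k i, c k i = h k i + e k i)
    (hh : ∀ k, ∑ i, (k i : ℂ) * h k i = 0) (he : ∀ k, ∑ i, (k i : ℂ) * e k i = 0)
    (hle : ∀ k, amp h k ≤ amp c k) (z : K3 × K3) :
    ‖tt c c c z - tt h h h z‖ ≤ 2 * min (N z.2 : ℝ) (N (-z.1 - z.2)) *
      (amp e z.1 * amp c z.2 * amp c (-z.1 - z.2) + amp c z.1 * amp e z.2 * amp c (-z.1 - z.2)
        + amp c z.1 * amp c z.2 * amp e (-z.1 - z.2)) := by
  have e1 : tt c c c z - tt h h h z = tt e c c z + tt h e c z + tt h h e z := by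
    unfold tt
    have f1 : ∑ j, c z.1 j * (z.2 j : ℂ) = ∑ j, h z.1 j * (z.2 j : ℂ) + ∑ j, e z.1 j * (z.2 j : ℂ) := by
      rw [← Finset.sum_add_distrib]
      exact Finset.sum_congr rfl fun j _ => by rw [hce]; ring
    have f2 : ∑ i, c z.2 i * c (-z.1 - z.2) i = ∑ i, h z.2 i * h (-z.1 - z.2) i
        + ∑ i, e z.2 i * c (-z.1 - z.2) i + ∑ i, h z.2 i * e (-z.1 - z.2) i := by
      rw [← Finset.sum_add_distrib, ← Finset.sum_add_distrib]
      refine Finset.sum_congr rfl fun j _ => ?_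
      rw [hce z.2, hce (-z.1 - z.2)]
      ring
    rw [f1, f2]
    ring_nf
  have b1 := norm_tt_le he c c z
  have b2 := norm_tt_le hh e c z
  have b3 := norm_tt_le hh h e z
  rw [e1]
  have a1 := amp_nonneg c z.1
  have a2 := amp_nonneg c z.2
  have a3 := amp_nonneg c (-z.1 - z.2)
  have c1 := amp_nonneg e z.1
  have c2 := amp_nonneg e z.2
  have c3 := amp_nonneg e (-z.1 - z.2)
  have d1 := amp_nonneg h z.1
  have d2 := amp_nonneg h z.2
  have l1 := hle z.1
  have l2 := hle z.2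
  have hm : (0 : ℝ) ≤ min (N z.2 : ℝ) (N (-z.1 - z.2)) := le_min (Nat.cast_nonneg _) (Nat.cast_nonneg _)
  calc ‖tt e c c z + tt h e c z + tt h h e z‖
      ≤ ‖tt e c c z‖ + ‖tt h e c z‖ + ‖tt h h e z‖ := norm_add₃_le
    _ ≤ 2 * min (N z.2 : ℝ) (N (-z.1 - z.2)) * (amp e z.1 * amp c z.2 * amp c (-z.1 - z.2))
        + 2 * min (N z.2 : ℝ) (N (-z.1 - z.2)) * (amp c z.1 * amp e z.2 * amp c (-z.1 - z.2))
        + 2 * min (N z.2 : ℝ) (N (-z.1 - z.2)) * (amp c z.1 * amp c z.2 * amp e (-z.1 - z.2)) := by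
        refine add_le_add (add_le_add b1 (b2.trans ?_)) (b3.trans ?_)
        · gcongr
        · gcongr
    _ = _ := by ring

/-- the kernel -/
noncomputable def KK (z : K3 × K3) : ℝ := N z.1 * min (N z.2 : ℝ) (N (-z.1 - z.2))

theorem KK_nonneg (z : K3 × K3) : 0 ≤ KK z :=
  mul_nonneg (Nat.cast_nonneg _) (le_min (Nat.cast_nonneg _) (Nat.cast_nonneg _))

theorem len_le_two (k : K3) : len k ≤ 2 * N k := by
  refine Real.sqrt_le_iff.2 ⟨by positivity, ?_⟩
  calc ∑ j, (k j : ℝ) ^ 2 ≤ ∑ _j : Fin 3, (N k : ℝ) ^ 2 := by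
        refine Finset.sum_le_sum fun j _ => ?_
        have := abs_coord_le k j
        rw [← sq_abs (k j : ℝ)]
        gcongr
    _ = 3 * (N k : ℝ) ^ 2 := by simp
    _ ≤ (2 * N k) ^ 2 := by nlinarith [sq_nonneg (N k : ℝ)]

theorem pol_len : Pol len := ⟨2, 1, by norm_num, fun k => by
  rw [abs_of_nonneg (len_nonneg k), pow_one]
  exact len_le' k⟩

/-- The production of the norm with the weight `|k|`. -/
theorem prod_le {c : Fam} (h : RapV c) (hreal : ∀ k i, c (-k) i = (starRingEnd ℂ) (c k i))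
    (hdiv : ∀ k, ∑ i, (k i : ℂ) * c k i = 0) (κ : ℕ → ℕ) {σ : ℕ → ℝ}
    (hσ : ∀ j, σ j = 1 ∨ σ j = -1) :
    ENNReal.ofReal |2 * Win.prod len c| ≤
      ∑' z, ENNReal.ofReal (26 * (KK z * GG κ (fun j => amp (hel (σ j) c)) (amp c) z)) := by
  classical
  have hone : (1 : ℝ) ^ 2 = 1 := by norm_num
  have hmone : (-1 : ℝ) ^ 2 = 1 := by norm_num
  set P1 : K3 × K3 → Prop := fun z => Loc κ z ∧ σ (cl (mx z)) = 1 with hP1
  set P2 : K3 × K3 → Prop := fun z => Loc κ z ∧ σ (cl (mx z)) = -1 with hP2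
  have y1 : Sy P1 := sy_loc κ σ 1
  have y2 : Sy P2 := sy_loc κ σ (-1)
  have y0 : Sy fun _ : K3 × K3 => True := ⟨fun _ => Iff.rfl, fun _ => Iff.rfl⟩
  have c0 := lt_ct y0 h hdiv
  have c1 := (lt_ct y1 (hel_rap hmone h) (hel_div (σ := -1) hdiv)).1
  have c2 := (lt_ct y2 (hel_rap hone h) (hel_div (σ := 1) hdiv)).1
  have z1 := hel_zero y1 h hdiv hmone
  have z2 := hel_zero y2 h hdiv hone
  -- the representation
  have e1 : ((2 * Win.prod len c : ℝ) : ℂ).re = (2 * Real.pi * Complex.I *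
      ∑' z, (ct (fun _ => True) c z - ct P1 (hel (-1) c) z - ct P2 (hel 1 c) z)).re := by
    rw [(c0.1.sub c1).tsum_sub c2, c0.1.tsum_sub c1, z1, z2, sub_zero, sub_zero, ← c0.2,
      Complex.ofReal_re, prod_eq pol_len h hreal]
    have sl := lt_summable (fun _ => True) h
    have e : 2 * (Real.pi : ℂ) * Complex.I * (2 * ∑' z, lt (fun _ => True) c z)
        = 2 * ∑' z, 2 * (Real.pi : ℂ) * Complex.I * lt (fun _ => True) c z := by
      rw [tsum_mul_left]
      ring
    rw [e]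
    have e' : (2 * ∑' z, 2 * (Real.pi : ℂ) * Complex.I * lt (fun _ => True) c z).re
        = 2 * ∑' z, (2 * (Real.pi : ℂ) * Complex.I * lt (fun _ => True) c z).re := by
      rw [← Complex.re_tsum (sl.mul_left _)]
      simp
    rw [e']
    congr 1
    refine tsum_congr fun z => ?_
    unfold lt
    rw [if_pos trivial, show len (z.1 + z.2) = len (-z.1 - z.2) by
      rw [← len_neg, show -(z.1 + z.2) = -z.1 - z.2 by abel]]
    rw [show 2 * (Real.pi : ℂ) * Complex.I * ((len (-z.1 - z.2) : ℂ) * tt c c c z)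
      = ((len (-z.1 - z.2) : ℝ) : ℂ) * (2 * Real.pi * Complex.I * tt c c c z) by ring,
      Complex.re_ofReal_mul]
  rw [Complex.ofReal_re] at e1
  set D : K3 × K3 → ℂ := fun z =>
    ct (fun _ => True) c z - ct P1 (hel (-1) c) z - ct P2 (hel 1 c) z with hD
  have sD : Summable D := (c0.1.sub c1).sub c2
  have h3 : ‖2 * (Real.pi : ℂ) * Complex.I‖ = 2 * Real.pi := by
    rw [norm_mul, norm_mul, Complex.norm_I, Complex.norm_real, Real.norm_eq_abs,
      abs_of_pos Real.pi_pos]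
    simp
  have hpi : Real.pi ≤ 3.15 := Real.pi_lt_d2.le
  have hpi0 := Real.pi_pos
  -- pointwise
  have hpt : ∀ z, 2 * Real.pi * ‖D z‖ ≤
      26 * (KK z * GG κ (fun j => amp (hel (σ j) c)) (amp c) z) := by
    intro z
    have hlen : |len (-z.1 - z.2) - len z.2| ≤ 2 * N z.1 := by
      refine (abs_len_sub _ _).trans ?_
      rw [show -z.1 - z.2 + z.2 = -z.1 by abel, len_neg]
      exact len_le_two z.1
    have hG := GG_nonneg (κ := κ) (e := fun j => amp (hel (σ j) c)) (w := amp c)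
      (fun j k => amp_nonneg _ k) (amp_nonneg c) z
    have hm : (0 : ℝ) ≤ min (N z.2 : ℝ) (N (-z.1 - z.2)) :=
      le_min (Nat.cast_nonneg _) (Nat.cast_nonneg _)
    have hN1 : (0 : ℝ) ≤ N z.1 := Nat.cast_nonneg _
    have key : ‖D z‖ ≤ |len (-z.1 - z.2) - len z.2| * (2 * min (N z.2 : ℝ) (N (-z.1 - z.2)) *
        GG κ (fun j => amp (hel (σ j) c)) (amp c) z) := by
      have hnn : ‖((len (-z.1 - z.2) : ℂ) - len z.2)‖ = |len (-z.1 - z.2) - len z.2| := by
        rw [← Complex.ofReal_sub, Complex.norm_real, Real.norm_eq_abs]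
      by_cases hL : Loc κ z
      · rcases hσ (cl (mx z)) with hs | hs
        · have p1 : P1 z := ⟨hL, hs⟩
          have p2 : ¬ P2 z := fun h => by
            have := h.2
            rw [hs] at this
            norm_num at this
          have e : D z = ((len (-z.1 - z.2) : ℂ) - len z.2) *
              (tt c c c z - tt (hel (-1) c) (hel (-1) c) (hel (-1) c) z) := by
            rw [hD]
            simp only [ct]
            rw [if_pos trivial, if_pos p1, if_neg p2]
            ring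
          rw [e, norm_mul, hnn]
          refine mul_le_mul_of_nonneg_left ?_ (abs_nonneg _)
          have := norm_tt_sub_le (c := c) (h := hel (-1) c) (e := hel 1 c)
            (fun k i => by rw [add_comm, hel_add]) (hel_div (σ := -1) hdiv) (hel_div (σ := 1) hdiv)
            (fun k => amp_hel_le hmone c k) z
          refine this.trans (le_of_eq ?_)
          unfold GG
          rw [if_pos hL]
          simp only [hs]
        · have p2 : P2 z := ⟨hL, hs⟩
          have p1 : ¬ P1 z := fun h => by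
            have := h.2
            rw [hs] at this
            norm_num at this
          have e : D z = ((len (-z.1 - z.2) : ℂ) - len z.2) *
              (tt c c c z - tt (hel 1 c) (hel 1 c) (hel 1 c) z) := by
            rw [hD]
            simp only [ct]
            rw [if_pos trivial, if_neg p1, if_pos p2]
            ring
          rw [e, norm_mul, hnn]
          refine mul_le_mul_of_nonneg_left ?_ (abs_nonneg _)
          have := norm_tt_sub_le (c := c) (h := hel 1 c) (e := hel (-1) c)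
            (fun k i => by rw [hel_add]) (hel_div (σ := 1) hdiv) (hel_div (σ := -1) hdiv)
            (fun k => amp_hel_le hone c k) z
          refine this.trans (le_of_eq ?_)
          unfold GG
          rw [if_pos hL]
          simp only [hs]
      · have p1 : ¬ P1 z := fun h => hL h.1
        have p2 : ¬ P2 z := fun h => hL h.1
        have e : D z = ((len (-z.1 - z.2) : ℂ) - len z.2) * tt c c c z := by
          rw [hD]
          simp only [ct]
          rw [if_pos trivial, if_neg p1, if_neg p2]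
          ring
        rw [e, norm_mul, hnn]
        refine mul_le_mul_of_nonneg_left ?_ (abs_nonneg _)
        refine (norm_tt_le hdiv c c z).trans (le_of_eq ?_)
        unfold GG
        rw [if_neg hL]
    calc 2 * Real.pi * ‖D z‖
        ≤ 2 * 3.15 * ((2 * N z.1) * (2 * min (N z.2 : ℝ) (N (-z.1 - z.2)) *
          GG κ (fun j => amp (hel (σ j) c)) (amp c) z)) := by
          have := key.trans (mul_le_mul_of_nonneg_right hlen (by positivity))
          gcongr
      _ = 25.2 * (KK z * GG κ (fun j => amp (hel (σ j) c)) (amp c) z) := by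
          unfold KK
          ring
      _ ≤ 26 * (KK z * GG κ (fun j => amp (hel (σ j) c)) (amp c) z) := by
          have := KK_nonneg z
          have : 0 ≤ KK z * GG κ (fun j => amp (hel (σ j) c)) (amp c) z := by positivity
          linarith
  have h5 : |2 * Win.prod len c| ≤ ∑' z, 2 * Real.pi * ‖D z‖ := by
    rw [e1]
    refine (Complex.abs_re_le_norm _).trans ?_
    rw [norm_mul, h3, tsum_mul_left]
    exact mul_le_mul_of_nonneg_left (norm_tsum_le_tsum_norm sD.norm) (by positivity)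
  calc ENNReal.ofReal |2 * Win.prod len c| ≤ ENNReal.ofReal (∑' z, 2 * Real.pi * ‖D z‖) :=
        ENNReal.ofReal_le_ofReal h5
    _ = ∑' z, ENNReal.ofReal (2 * Real.pi * ‖D z‖) :=
        ENNReal.ofReal_tsum_of_nonneg (fun z => by positivity) (sD.norm.mul_left _)
    _ ≤ _ := ENNReal.tsum_le_tsum fun z => ENNReal.ofReal_le_ofReal (hpt z)

/-- ordered triads -/
def Can (z : K3 × K3) : Prop := N z.1 ≤ N (-z.1 - z.2) ∧ N (-z.1 - z.2) ≤ N z.2

open scoped Classical in
noncomputable def cg (κ : ℕ → ℕ) (e : ℕ → K3 → ℝ) (w : K3 → ℝ) (z : K3 × K3) : ℝ≥0∞ :=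
  if Can z then ENNReal.ofReal (N z.1 * N z.2 * GG κ e w z) else 0

theorem cg_of {κ : ℕ → ℕ} {e : ℕ → K3 → ℝ} {w : K3 → ℝ} {z : K3 × K3} (h : Can z) :
    cg κ e w z = ENNReal.ofReal (N z.1 * N z.2 * GG κ e w z) := by
  unfold cg
  rw [if_pos h]

/-- Reduction to ordered triads. -/
theorem KK_le {κ : ℕ → ℕ} {e : ℕ → K3 → ℝ} {w : K3 → ℝ} (he : ∀ j k, 0 ≤ e j k)
    (hw : ∀ k, 0 ≤ w k) (z : K3 × K3) :
    ENNReal.ofReal (KK z * GG κ e w z) ≤ cg κ e w z + cg κ e w (z.2, z.1)
      + cg κ e w (z.1, -z.1 - z.2) + cg κ e w (-z.1 - z.2, z.1)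
      + cg κ e w (z.2, -z.1 - z.2) + cg κ e w (-z.1 - z.2, z.2) := by
  have hG := GG_nonneg (κ := κ) he hw z
  have g1 : GG κ e w (z.2, z.1) = GG κ e w z := GG_swap z
  have g2 : GG κ e w (z.1, -z.1 - z.2) = GG κ e w z := GG_rot z
  have g3 : GG κ e w (-z.1 - z.2, z.1) = GG κ e w z := by
    rw [← g2]
    exact GG_swap (z.1, -z.1 - z.2)
  have g4 : GG κ e w (z.2, -z.1 - z.2) = GG κ e w z := by
    rw [← g1]
    have := GG_rot (κ := κ) (e := e) (w := w) (z.2, z.1)
    simp only at this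
    rw [show -z.2 - z.1 = -z.1 - z.2 by abel] at this
    exact this
  have g5 : GG κ e w (-z.1 - z.2, z.2) = GG κ e w z := by
    rw [← g4]
    exact GG_swap (z.2, -z.1 - z.2)
  have r2 : -z.2 - z.1 = -z.1 - z.2 := by abel
  have r3 : -z.1 - (-z.1 - z.2) = z.2 := by abel
  have r4 : -(-z.1 - z.2) - z.1 = z.2 := by abel
  have r5 : -z.2 - (-z.1 - z.2) = z.1 := by abel
  have r6 : -(-z.1 - z.2) - z.2 = z.1 := by abel
  set p := N z.1 with hp
  set q := N z.2 with hq
  set r := N (-z.1 - z.2) with hr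
  have hK : KK z = p * min (q : ℝ) r := rfl
  have hpR : (0 : ℝ) ≤ p := Nat.cast_nonneg _
  have hqR : (0 : ℝ) ≤ q := Nat.cast_nonneg _
  have hrR : (0 : ℝ) ≤ r := Nat.cast_nonneg _
  rcases le_total p q with h1 | h1 <;> rcases le_total q r with h2 | h2 <;>
    rcases le_total p r with h3 | h3
  · -- p ≤ q ≤ r
    have hc : Can (z.1, -z.1 - z.2) := ⟨by simp only; rw [r3]; exact h1, by simp only; rw [r3]; exact h2⟩
    refine le_trans ?_ (le_add_right (le_add_right (le_add_right (le_add_left le_rfl))))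
    rw [cg_of hc, g2]
    apply ENNReal.ofReal_le_ofReal
    show KK z * _ ≤ (p : ℝ) * r * _
    rw [hK]
    gcongr
    exact min_le_right _ _
  · -- p ≤ q ≤ r, r ≤ p
    have hc : Can (z.1, -z.1 - z.2) := ⟨by simp only; rw [r3]; exact h1, by simp only; rw [r3]; exact h2⟩
    refine le_trans ?_ (le_add_right (le_add_right (le_add_right (le_add_left le_rfl))))
    rw [cg_of hc, g2]
    apply ENNReal.ofReal_le_ofReal
    show KK z * _ ≤ (p : ℝ) * r * _
    rw [hK]
    gcongr
    exact min_le_right _ _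
  · -- p ≤ r ≤ q
    have hc : Can z := ⟨h3, h2⟩
    refine le_trans ?_ (le_add_right (le_add_right (le_add_right (le_add_right (le_add_right le_rfl)))))
    rw [cg_of hc]
    apply ENNReal.ofReal_le_ofReal
    show KK z * _ ≤ (p : ℝ) * q * _
    rw [hK]
    gcongr
    exact min_le_left _ _
  · -- r ≤ p ≤ q
    have hc : Can (-z.1 - z.2, z.2) := ⟨by simp only; rw [r6]; exact h3, by simp only; rw [r6]; exact h1⟩
    refine le_trans ?_ (le_add_left le_rfl)
    rw [cg_of hc, g5]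
    apply ENNReal.ofReal_le_ofReal
    show KK z * _ ≤ (r : ℝ) * q * _
    rw [hK]
    have h1R : (p : ℝ) ≤ q := by exact_mod_cast h1
    have : (p : ℝ) * min (q : ℝ) r ≤ r * q := by
      calc (p : ℝ) * min (q : ℝ) r ≤ q * r := by
            gcongr
            exact min_le_right _ _
        _ = r * q := mul_comm _ _
    gcongr
  · -- q ≤ p, q ≤ r, p ≤ r
    have hc : Can (z.2, -z.1 - z.2) := ⟨by simp only; rw [r5]; exact h1, by simp only; rw [r5]; exact h3⟩
    refine le_trans ?_ (le_add_right (le_add_left le_rfl))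
    rw [cg_of hc, g4]
    apply ENNReal.ofReal_le_ofReal
    show KK z * _ ≤ (q : ℝ) * r * _
    rw [hK]
    have h1R : (p : ℝ) ≤ r := by exact_mod_cast h3
    have : (p : ℝ) * min (q : ℝ) r ≤ q * r := by
      calc (p : ℝ) * min (q : ℝ) r ≤ r * q := by
            gcongr
            exact min_le_left _ _
        _ = q * r := mul_comm _ _
    gcongr
  · -- q ≤ r ≤ p
    have hc : Can (z.2, z.1) := ⟨by simp only; rw [r2]; exact h2, by simp only; rw [r2]; exact h3⟩
    refine le_trans ?_ (le_add_right (le_add_right (le_add_right (le_add_right (le_add_left le_rfl)))))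
    rw [cg_of hc, g1]
    apply ENNReal.ofReal_le_ofReal
    show KK z * _ ≤ (q : ℝ) * p * _
    rw [hK]
    have : (p : ℝ) * min (q : ℝ) r ≤ q * p := by
      rw [mul_comm (q : ℝ)]
      gcongr
      exact min_le_left _ _
    gcongr
  · -- r ≤ q ≤ p, p ≤ r
    have hc : Can (-z.1 - z.2, z.1) := ⟨by simp only; rw [r4]; exact h2, by simp only; rw [r4]; exact h1⟩
    refine le_trans ?_ (le_add_right (le_add_right (le_add_left le_rfl)))
    rw [cg_of hc, g3]
    apply ENNReal.ofReal_le_ofReal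
    show KK z * _ ≤ (r : ℝ) * p * _
    rw [hK]
    have : (p : ℝ) * min (q : ℝ) r ≤ r * p := by
      rw [mul_comm (r : ℝ)]
      gcongr
      exact min_le_right _ _
    gcongr
  · -- r ≤ q ≤ p
    have hc : Can (-z.1 - z.2, z.1) := ⟨by simp only; rw [r4]; exact h2, by simp only; rw [r4]; exact h1⟩
    refine le_trans ?_ (le_add_right (le_add_right (le_add_left le_rfl)))
    rw [cg_of hc, g3]
    apply ENNReal.ofReal_le_ofReal
    show KK z * _ ≤ (r : ℝ) * p * _
    rw [hK]
    have : (p : ℝ) * min (q : ℝ) r ≤ r * p := by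
      rw [mul_comm (r : ℝ)]
      gcongr
      exact min_le_right _ _
    gcongr

theorem tsum_KK_le {κ : ℕ → ℕ} {e : ℕ → K3 → ℝ} {w : K3 → ℝ} (he : ∀ j k, 0 ≤ e j k)
    (hw : ∀ k, 0 ≤ w k) :
    ∑' z, ENNReal.ofReal (KK z * GG κ e w z) ≤ 6 * ∑' z, cg κ e w z := by
  set Z := ∑' z, cg κ e w z with hZ
  have t1 : ∑' z : K3 × K3, cg κ e w (z.2, z.1) = Z := (Equiv.prodComm K3 K3).tsum_eq (cg κ e w)
  have t2 : ∑' z : K3 × K3, cg κ e w (z.1, -z.1 - z.2) = Z := e2.tsum_eq (cg κ e w)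
  have t5 : ∑' z : K3 × K3, cg κ e w (-z.1 - z.2, z.2) = Z := e3.tsum_eq (cg κ e w)
  have t3 : ∑' z : K3 × K3, cg κ e w (-z.1 - z.2, z.1) = Z := by
    rw [← t1]
    exact e2.tsum_eq (fun z => cg κ e w (z.2, z.1))
  have t4 : ∑' z : K3 × K3, cg κ e w (z.2, -z.1 - z.2) = Z := by
    rw [← t1]
    exact e3.tsum_eq (fun z => cg κ e w (z.2, z.1))
  calc ∑' z, ENNReal.ofReal (KK z * GG κ e w z)
      ≤ ∑' z, (cg κ e w z + cg κ e w (z.2, z.1)
      + cg κ e w (z.1, -z.1 - z.2) + cg κ e w (-z.1 - z.2, z.1)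
      + cg κ e w (z.2, -z.1 - z.2) + cg κ e w (-z.1 - z.2, z.2)) :=
        ENNReal.tsum_le_tsum fun z => KK_le he hw z
    _ = 6 * Z := by
        rw [ENNReal.tsum_add, ENNReal.tsum_add, ENNReal.tsum_add, ENNReal.tsum_add,
          ENNReal.tsum_add, t1, t2, t3, t4, t5]
        ring

end Pool.Agent.Q63.Hel
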