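import Pool.Agent.Q63.Hel.Shell

/-!
Summation over the scales, and the estimate of the production.
-/

open Set Filter Topology
open scoped ENNReal

namespace Pool.Agent.Q63.Hel

open H459R3.NS Pool.Agent.Q63.Win

theorem pol_rpow {γ : ℝ} (hγ : γ ≤ 3) (hγ0 : 0 ≤ γ) : Pol fun k => (N k : ℝ) ^ γ := by
  refine ⟨1, 3, zero_le_one, fun k => ?_⟩
  have hN : (0 : ℝ) ≤ N k := Nat.cast_nonneg _
  rw [abs_of_nonneg (by positivity), one_mul]
  calc (N k : ℝ) ^ γ ≤ (1 + (N k : ℝ)) ^ γ := by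
        gcongr
        linarith
    _ ≤ (1 + (N k : ℝ)) ^ ((3 : ℕ) : ℝ) := by
        apply Real.rpow_le_rpow_of_exponent_le
        · linarith
        · push_cast
          exact hγ
    _ = (1 + (N k : ℝ)) ^ 3 := Real.rpow_natCast _ _

section

variable {w : K3 → ℝ}

theorem TT_sum {m : K3} {γ : ℝ} (hγ : 0 ≤ γ) {x : ℝ} (hx : 0 ≤ x) :
    ∑' j, (if m ∈ TT j then ENNReal.ofReal ((2 ^ j : ℝ) ^ γ * x) else 0)
      ≤ ENNReal.ofReal (2 * 4 ^ γ * ((N m : ℝ) ^ γ * x)) := by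
  classical
  set J := cl (N m) with hJ
  have hmem : ∀ j, m ∈ TT j → j = J ∨ j = J + 1 := by
    intro j hj
    rw [mem_TT] at hj
    have h1 : J ≤ j := Nat.clog_le_of_le_pow hj.1
    have h2 : N m ≤ 2 ^ J := le_two_pow_cl (N m)
    have h3 : 2 ^ j < 2 ^ (J + 2) := by
      calc 2 ^ j < 4 * N m := hj.2
        _ ≤ 4 * 2 ^ J := by omega
        _ = 2 ^ (J + 2) := by rw [pow_add]; ring
    have h4 := (Nat.pow_lt_pow_iff_right one_lt_two).1 h3
    omega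
  have hb : ∀ j, (if m ∈ TT j then ENNReal.ofReal ((2 ^ j : ℝ) ^ γ * x) else 0)
      ≤ ENNReal.ofReal (4 ^ γ * ((N m : ℝ) ^ γ * x)) := by
    intro j
    split_ifs with h
    · apply ENNReal.ofReal_le_ofReal
      rw [mem_TT] at h
      have h1 : (2 ^ j : ℝ) ≤ 4 * N m := by exact_mod_cast h.2.le
      calc (2 ^ j : ℝ) ^ γ * x ≤ (4 * (N m : ℝ)) ^ γ * x := by gcongr
        _ = 4 ^ γ * ((N m : ℝ) ^ γ * x) := by
            rw [Real.mul_rpow (by norm_num) (Nat.cast_nonneg _)]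
            ring
    · exact zero_le
  rw [tsum_eq_sum (s := {J, J + 1})]
  · rw [Finset.sum_pair (by omega)]
    refine (add_le_add (hb J) (hb (J + 1))).trans (le_of_eq ?_)
    rw [← ENNReal.ofReal_add (by positivity) (by positivity)]
    congr 1
    ring
  · intro j hj
    rw [if_neg]
    intro h
    exact hj (by rcases hmem j h with h | h <;> simp [h])

/-- sums of the energies of the shells -/
theorem sum_BB {γ : ℝ} (hγ : 0 ≤ γ) (hγ3 : γ ≤ 3) (hr : RapR w) :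
    ∑' j, ENNReal.ofReal ((2 ^ j : ℝ) ^ γ * BB w j)
      ≤ ENNReal.ofReal (2 * 4 ^ γ * XX (fun k => (N k : ℝ) ^ γ) w) := by
  classical
  have hs := XX_summable (pol_rpow hγ3 hγ) hr
  have e1 : ∀ j, ENNReal.ofReal ((2 ^ j : ℝ) ^ γ * BB w j)
      = ∑' m, (if m ∈ TT j then ENNReal.ofReal ((2 ^ j : ℝ) ^ γ * w m ^ 2) else 0) := by
    intro j
    rw [tsum_eq_sum (s := TT j)]
    · unfold BB
      rw [Finset.mul_sum, ENNReal.ofReal_sum_of_nonneg fun _ _ => by positivity]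
      exact Finset.sum_congr rfl fun m hm => by rw [if_pos hm]
    · intro m hm
      rw [if_neg hm]
  simp_rw [e1]
  rw [ENNReal.tsum_comm]
  unfold XX
  rw [← tsum_mul_left, ENNReal.ofReal_tsum_of_nonneg (fun k => by positivity) (hs.mul_left _)]
  exact ENNReal.tsum_le_tsum fun m => TT_sum hγ (sq_nonneg _)

theorem Sn_sq_le (hw : ∀ k, 0 ≤ w k) (R : ℕ) :
    Sn w R ^ 2 ≤ 26 * R * ∑ l ∈ box R, (N l : ℝ) ^ 4 * w l ^ 2 := by
  classical
  set X := ∑ l ∈ box R, (N l : ℝ) ^ 4 * w l ^ 2 with hX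
  have hX0 : 0 ≤ X := Finset.sum_nonneg fun _ _ => by positivity
  have h := cs_sum (w := w) (F := (box R).erase 0) (R := R) (s := 2) (Bd := Real.sqrt X)
    (Finset.erase_subset _ _) (Finset.notMem_erase _ _) (by norm_num) ?_ (Real.sqrt_nonneg _)
  · have e0 : Sn w R = ∑ l ∈ (box R).erase 0, (N l : ℝ) * w l := by
      unfold Sn
      rw [Finset.sum_erase]
      rw [N_eq_zero.2 rfl]
      simp
    rw [← e0] at h
    have hS := Sn_nonneg hw R
    have h2 := pow_le_pow_left₀ hS h 2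
    refine h2.trans (le_of_eq ?_)
    have e1 : min (5 - 2 * (2 : ℝ)) 1 = 1 := by norm_num
    have e2 : (5 / 2 - 2 : ℝ) = 1 / 2 := by norm_num
    rw [mul_pow, mul_pow, Real.sq_sqrt hX0, e1, e2, div_one, Real.sq_sqrt (by norm_num),
      ← Real.sqrt_eq_rpow, Real.sq_sqrt (Nat.cast_nonneg _)]
  · rw [Real.sq_sqrt hX0, hX]
    have h3 : ∀ l ∈ (box R).erase 0, (N l : ℝ) ^ (2 * (2 : ℝ)) * w l ^ 2
        = (N l : ℝ) ^ 4 * w l ^ 2 := by
      intro l _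
      congr 1
      rw [show (2 * (2 : ℝ)) = ((4 : ℕ) : ℝ) by norm_num, Real.rpow_natCast]
    rw [Finset.sum_congr rfl h3]
    exact Finset.sum_le_sum_of_subset_of_nonneg (Finset.erase_subset _ _) fun _ _ _ => by positivity

/-- geometric sums -/
theorem geo_sum {n : ℕ} (hn : n ≠ 0) {γ : ℝ} (hγ : 1 ≤ γ) {x : ℝ} (hx : 0 ≤ x) :
    ∑' j, (if n ≤ 2 ^ j then ENNReal.ofReal ((2 ^ j : ℝ) ^ (-γ) * x) else 0)
      ≤ ENNReal.ofReal (2 * ((n : ℝ) ^ (-γ) * x)) := by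
  have hnR : (0 : ℝ) < n := by exact_mod_cast Nat.pos_of_ne_zero hn
  set J := cl n with hJ
  have hle : n ≤ 2 ^ J := le_two_pow_cl n
  have hleR : (n : ℝ) ≤ 2 ^ J := by exact_mod_cast hle
  have h0 : ∑ j ∈ Finset.range J,
      (if n ≤ 2 ^ j then ENNReal.ofReal ((2 ^ j : ℝ) ^ (-γ) * x) else 0) = 0 := by
    refine Finset.sum_eq_zero fun j hj => ?_
    rw [if_neg]
    intro h
    have := Nat.clog_le_of_le_pow h
    rw [Finset.mem_range] at hj
    have : J ≤ j := this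
    omega
  rw [← ENNReal.summable.sum_add_tsum_nat_add' (k := J), h0, zero_add]
  have hb : ∀ i : ℕ, (if n ≤ 2 ^ (i + J) then ENNReal.ofReal ((2 ^ (i + J) : ℝ) ^ (-γ) * x) else 0)
      ≤ ENNReal.ofReal ((n : ℝ) ^ (-γ) * x * (1 / 2) ^ i) := by
    intro i
    split_ifs
    · apply ENNReal.ofReal_le_ofReal
      have h1 : (2 ^ (i + J) : ℝ) ^ (-γ) = (2 ^ i : ℝ) ^ (-γ) * (2 ^ J : ℝ) ^ (-γ) := by
        rw [pow_add, Real.mul_rpow (by positivity) (by positivity)]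
      have h2 : (2 ^ J : ℝ) ^ (-γ) ≤ (n : ℝ) ^ (-γ) := by
        rw [Real.rpow_neg (by positivity), Real.rpow_neg hnR.le]
        gcongr
      have h3 : (2 ^ i : ℝ) ^ (-γ) ≤ (1 / 2) ^ i := by
        have h4 : (1 : ℝ) ≤ 2 ^ i := one_le_pow₀ (by norm_num)
        calc (2 ^ i : ℝ) ^ (-γ) ≤ (2 ^ i : ℝ) ^ (-1 : ℝ) :=
              Real.rpow_le_rpow_of_exponent_le h4 (by linarith)
          _ = (1 / 2) ^ i := by rw [Real.rpow_neg_one, one_div, inv_pow]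
      rw [h1]
      calc (2 ^ i : ℝ) ^ (-γ) * (2 ^ J : ℝ) ^ (-γ) * x
          ≤ (1 / 2) ^ i * (n : ℝ) ^ (-γ) * x := by gcongr
        _ = _ := by ring
    · exact zero_le
  refine (ENNReal.tsum_le_tsum hb).trans ?_
  have hsum : Summable fun i : ℕ => (n : ℝ) ^ (-γ) * x * (1 / 2 : ℝ) ^ i :=
    summable_geometric_two.mul_left _
  rw [← ENNReal.ofReal_tsum_of_nonneg (fun i => by positivity) hsum, tsum_mul_left,
    tsum_geometric_two]
  apply le_of_eq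
  congr 1
  ring

theorem sum_Sn {s : ℝ} (hs1 : 1 / 2 ≤ s) (hs2 : s < 5 / 2) (hw : ∀ k, 0 ≤ w k) (hr : RapR w) :
    ∑' j, ENNReal.ofReal ((2 ^ j : ℝ) ^ (-(3 / 2 + s)) * Sn w (2 ^ j) ^ 2)
      ≤ ENNReal.ofReal (52 * XX (fun k => (N k : ℝ) ^ (7 / 2 - s)) w) := by
  classical
  have hs := XX_summable (pol_rpow (γ := 7 / 2 - s) (by linarith) (by linarith)) hr
  have e1 : ∀ j, ENNReal.ofReal ((2 ^ j : ℝ) ^ (-(3 / 2 + s)) * Sn w (2 ^ j) ^ 2)
      ≤ ∑' l, (if N l ≤ 2 ^ j then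
        ENNReal.ofReal ((2 ^ j : ℝ) ^ (-(1 / 2 + s)) * (26 * ((N l : ℝ) ^ 4 * w l ^ 2))) else 0) := by
    intro j
    rw [tsum_eq_sum (s := box (2 ^ j))]
    · have h2 : ∀ l ∈ box (2 ^ j), (if N l ≤ 2 ^ j then
          ENNReal.ofReal ((2 ^ j : ℝ) ^ (-(1 / 2 + s)) * (26 * ((N l : ℝ) ^ 4 * w l ^ 2))) else 0)
          = ENNReal.ofReal ((2 ^ j : ℝ) ^ (-(1 / 2 + s)) * (26 * ((N l : ℝ) ^ 4 * w l ^ 2))) := by
        intro l hl
        rw [if_pos (mem_box.1 hl)]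
      rw [Finset.sum_congr rfl h2, ← ENNReal.ofReal_sum_of_nonneg fun _ _ => by positivity]
      apply ENNReal.ofReal_le_ofReal
      rw [← Finset.mul_sum, ← Finset.mul_sum]
      have h3 := Sn_sq_le hw (2 ^ j)
      push_cast at h3
      calc (2 ^ j : ℝ) ^ (-(3 / 2 + s)) * Sn w (2 ^ j) ^ 2
          ≤ (2 ^ j : ℝ) ^ (-(3 / 2 + s)) *
            (26 * 2 ^ j * ∑ l ∈ box (2 ^ j), (N l : ℝ) ^ 4 * w l ^ 2) := by gcongr
        _ = ((2 ^ j : ℝ) ^ (-(3 / 2 + s)) * 2 ^ j) *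
            (26 * ∑ l ∈ box (2 ^ j), (N l : ℝ) ^ 4 * w l ^ 2) := by ring
        _ = _ := by
            rw [← Real.rpow_add_one (by positivity)]
            congr 2
            ring
    · intro l hl
      rw [mem_box] at hl
      rw [if_neg hl]
  refine (ENNReal.tsum_le_tsum e1).trans ?_
  rw [ENNReal.tsum_comm]
  unfold XX
  rw [← tsum_mul_left, ENNReal.ofReal_tsum_of_nonneg (fun k => by positivity) (hs.mul_left _)]
  refine ENNReal.tsum_le_tsum fun l => ?_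
  rcases eq_or_ne (N l) 0 with h0 | h0
  · rw [h0]
    simp
  · have hN : (0 : ℝ) < N l := by exact_mod_cast Nat.pos_of_ne_zero h0
    refine (geo_sum h0 (by linarith) (by positivity)).trans (le_of_eq ?_)
    congr 1
    have e : (N l : ℝ) ^ (7 / 2 - s) = (N l : ℝ) ^ (-(1 / 2 + s)) * (N l : ℝ) ^ 4 := by
      rw [← Real.rpow_natCast (N l : ℝ) 4, ← Real.rpow_add hN]
      congr 1
      push_cast
      ring
    rw [e]
    ring

/-- the constant -/
noncomputable def Ch (s : ℝ) : ℝ := 128 * As s + 5760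

theorem Ch_pos (s : ℝ) : 0 < Ch s := by
  have := As_nonneg s
  unfold Ch
  linarith

theorem sum_UU {e : ℕ → K3 → ℝ} {κ : ℕ → ℕ} (hw : ∀ k, 0 ≤ w k) (hr : RapR w)
    (he : ∀ j k, 0 ≤ e j k) {s β : ℝ} (hs1 : 1 / 2 ≤ s) (hs2 : s < 5 / 2) (hβ0 : 0 ≤ β)
    (hβ : ∀ j, ∑ l ∈ box (2 ^ j) \ box (κ j), (N l : ℝ) ^ (2 * s) * e j l ^ 2 ≤ β ^ 2)
    {δ C : ℝ} (hδ : 0 ≤ δ) (hC : 0 ≤ C) (hΛ : ∀ j, Sn w (κ j) ≤ δ * 4 ^ j + C) :
    ∑' j, ENNReal.ofReal (UU κ e w j) ≤ ENNReal.ofReal (128 * δ * XX (fun k => (N k : ℝ) ^ 3) w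
      + 8 * C * XX (fun k => (N k : ℝ) ^ 1) w
      + Ch s * β * XX (fun k => (N k : ℝ) ^ (7 / 2 - s)) w) := by
  have hA := As_nonneg s
  set γ : ℝ := 7 / 2 - s with hγ
  have hγ0 : 0 ≤ γ := by rw [hγ]; linarith
  have hγ3 : γ ≤ 3 := by rw [hγ]; linarith
  have h4s : (4 : ℝ) ^ s ≤ 32 := by
    calc (4 : ℝ) ^ s ≤ (4 : ℝ) ^ (5 / 2 : ℝ) :=
          Real.rpow_le_rpow_of_exponent_le (by norm_num) hs2.le
      _ = 32 := by
          rw [show (4 : ℝ) = 2 ^ (2 : ℝ) by norm_num, ← Real.rpow_mul (by norm_num)]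
          norm_num
  have h4γ : (4 : ℝ) ^ γ ≤ 64 := by
    calc (4 : ℝ) ^ γ ≤ (4 : ℝ) ^ (3 : ℝ) := Real.rpow_le_rpow_of_exponent_le (by norm_num) hγ3
      _ = 64 := by norm_num
  have hs4 : 0 < (4 : ℝ) ^ s := by positivity
  have hstep : ∀ j, UU κ e w j ≤ δ * ((2 ^ j : ℝ) ^ (3 : ℝ) * BB w j)
      + C * ((2 ^ j : ℝ) ^ (1 : ℝ) * BB w j)
      + (As s + 32) * β * ((2 ^ j : ℝ) ^ γ * BB w j)
      + 32 * β * ((2 ^ j : ℝ) ^ (-(3 / 2 + s)) * Sn w (2 ^ j) ^ 2) := by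
    intro j
    have hB := BB_nonneg w j
    have hS := Sn_nonneg hw (2 ^ j)
    have hp : (0 : ℝ) < 2 ^ j := by positivity
    refine (UU_le hw he (by linarith) hs2 hβ0 j (hβ j)).trans ?_
    have t1 : (2 : ℝ) ^ j * (Sn w (κ j) * BB w j) ≤ δ * ((2 ^ j : ℝ) ^ (3 : ℝ) * BB w j)
        + C * ((2 ^ j : ℝ) ^ (1 : ℝ) * BB w j) := by
      have e3 : (2 ^ j : ℝ) ^ (3 : ℝ) = 2 ^ j * 4 ^ j := by
        have h44 : (4 : ℝ) ^ j = 2 ^ j * 2 ^ j := by
          rw [show (4 : ℝ) = 2 * 2 by norm_num, mul_pow]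
        rw [show (3 : ℝ) = ((3 : ℕ) : ℝ) by norm_num, Real.rpow_natCast, h44]
        ring
      rw [e3, Real.rpow_one]
      calc (2 : ℝ) ^ j * (Sn w (κ j) * BB w j) ≤ 2 ^ j * ((δ * 4 ^ j + C) * BB w j) := by
            gcongr
            exact hΛ j
        _ = _ := by ring
    have t2 : (2 : ℝ) ^ j * (As s * (2 ^ j : ℝ) ^ (5 / 2 - s) * β * BB w j)
        = As s * β * ((2 ^ j : ℝ) ^ γ * BB w j) := by
      have e3 : (2 ^ j : ℝ) ^ γ = (2 ^ j : ℝ) ^ (5 / 2 - s) * 2 ^ j := by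
        rw [← Real.rpow_add_one hp.ne']
        congr 1
        rw [hγ]
        ring
      rw [e3]
      ring
    have t3 : (2 : ℝ) ^ j * (2 * (Sn w (2 ^ j) * ((4 : ℝ) ^ s * β * (2 ^ j : ℝ) ^ (-s) *
        Real.sqrt (BB w j)))) ≤ 32 * β * ((2 ^ j : ℝ) ^ γ * BB w j)
        + 32 * β * ((2 ^ j : ℝ) ^ (-(3 / 2 + s)) * Sn w (2 ^ j) ^ 2) := by
      set x := (2 ^ j : ℝ) ^ (γ / 2) * Real.sqrt (BB w j) with hx
      set y := (2 ^ j : ℝ) ^ (-(3 / 2 + s) / 2) * Sn w (2 ^ j) with hy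
      have ex : x ^ 2 = (2 ^ j : ℝ) ^ γ * BB w j := by
        rw [hx, mul_pow, Real.sq_sqrt hB, ← Real.rpow_natCast ((2 ^ j : ℝ) ^ (γ / 2)),
          ← Real.rpow_mul hp.le]
        congr 2
        push_cast
        ring
      have ey : y ^ 2 = (2 ^ j : ℝ) ^ (-(3 / 2 + s)) * Sn w (2 ^ j) ^ 2 := by
        rw [hy, mul_pow, ← Real.rpow_natCast ((2 ^ j : ℝ) ^ (-(3 / 2 + s) / 2)),
          ← Real.rpow_mul hp.le]
        congr 2
        push_cast
        ring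
      have exy : x * y = 2 ^ j * (2 ^ j : ℝ) ^ (-s) * Real.sqrt (BB w j) * Sn w (2 ^ j) := by
        have e5 : (2 ^ j : ℝ) * (2 ^ j : ℝ) ^ (-s)
            = (2 ^ j : ℝ) ^ (γ / 2) * (2 ^ j : ℝ) ^ (-(3 / 2 + s) / 2) := by
          rw [← Real.rpow_add hp, mul_comm, ← Real.rpow_add_one hp.ne']
          congr 1
          rw [hγ]
          ring
        rw [e5, hx, hy]
        ring
      rw [← ex, ← ey]
      have h5 : 2 * (x * y) ≤ x ^ 2 + y ^ 2 := by nlinarith [sq_nonneg (x - y)]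
      calc (2 : ℝ) ^ j * (2 * (Sn w (2 ^ j) * ((4 : ℝ) ^ s * β * (2 ^ j : ℝ) ^ (-s) *
          Real.sqrt (BB w j)))) = (4 : ℝ) ^ s * β * (2 * (x * y)) := by
            rw [exy]
            ring
        _ ≤ 32 * β * (x ^ 2 + y ^ 2) := by gcongr
        _ = _ := by ring
    have h6 : (2 : ℝ) ^ j * (Sn w (κ j) * BB w j + As s * (2 ^ j : ℝ) ^ (5 / 2 - s) * β * BB w j
        + 2 * (Sn w (2 ^ j) * ((4 : ℝ) ^ s * β * (2 ^ j : ℝ) ^ (-s) * Real.sqrt (BB w j))))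
        = (2 : ℝ) ^ j * (Sn w (κ j) * BB w j)
          + (2 : ℝ) ^ j * (As s * (2 ^ j : ℝ) ^ (5 / 2 - s) * β * BB w j)
          + (2 : ℝ) ^ j * (2 * (Sn w (2 ^ j) * ((4 : ℝ) ^ s * β * (2 ^ j : ℝ) ^ (-s) *
          Real.sqrt (BB w j)))) := by ring
    rw [h6, t2]
    linarith
  have hB := BB_nonneg w
  have n1 : ∀ (γ : ℝ) j, 0 ≤ (2 ^ j : ℝ) ^ γ * BB w j := fun γ j => by
    have := hB j
    positivity
  have n2 : ∀ j, 0 ≤ (2 ^ j : ℝ) ^ (-(3 / 2 + s)) * Sn w (2 ^ j) ^ 2 := fun j => by positivity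
  have x1 : 0 ≤ XX (fun k => (N k : ℝ) ^ (3 : ℝ)) w := XX_nonneg fun k => by positivity
  have x2 : 0 ≤ XX (fun k => (N k : ℝ) ^ (1 : ℝ)) w := XX_nonneg fun k => by positivity
  have x3 : 0 ≤ XX (fun k => (N k : ℝ) ^ γ) w := XX_nonneg fun k => by positivity
  calc ∑' j, ENNReal.ofReal (UU κ e w j)
      ≤ ∑' j, (ENNReal.ofReal δ * ENNReal.ofReal ((2 ^ j : ℝ) ^ (3 : ℝ) * BB w j)
        + ENNReal.ofReal C * ENNReal.ofReal ((2 ^ j : ℝ) ^ (1 : ℝ) * BB w j)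
        + ENNReal.ofReal ((As s + 32) * β) * ENNReal.ofReal ((2 ^ j : ℝ) ^ γ * BB w j)
        + ENNReal.ofReal (32 * β) *
          ENNReal.ofReal ((2 ^ j : ℝ) ^ (-(3 / 2 + s)) * Sn w (2 ^ j) ^ 2)) := by
        refine ENNReal.tsum_le_tsum fun j => ?_
        refine (ENNReal.ofReal_le_ofReal (hstep j)).trans (le_of_eq ?_)
        have m1 := n1 3 j
        have m2 := n1 1 j
        have m3 := n1 γ j
        have m4 := n2 j
        rw [ENNReal.ofReal_add (by positivity) (by positivity),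
          ENNReal.ofReal_add (by positivity) (by positivity),
          ENNReal.ofReal_add (by positivity) (by positivity),
          ENNReal.ofReal_mul (p := δ) hδ, ENNReal.ofReal_mul (p := C) hC,
          ENNReal.ofReal_mul (p := (As s + 32) * β) (by positivity),
          ENNReal.ofReal_mul (p := 32 * β) (by positivity)]
    _ = ENNReal.ofReal δ * ∑' j, ENNReal.ofReal ((2 ^ j : ℝ) ^ (3 : ℝ) * BB w j)
        + ENNReal.ofReal C * ∑' j, ENNReal.ofReal ((2 ^ j : ℝ) ^ (1 : ℝ) * BB w j)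
        + ENNReal.ofReal ((As s + 32) * β) * ∑' j, ENNReal.ofReal ((2 ^ j : ℝ) ^ γ * BB w j)
        + ENNReal.ofReal (32 * β) *
          ∑' j, ENNReal.ofReal ((2 ^ j : ℝ) ^ (-(3 / 2 + s)) * Sn w (2 ^ j) ^ 2) := by
        rw [ENNReal.tsum_add, ENNReal.tsum_add, ENNReal.tsum_add, ENNReal.tsum_mul_left,
          ENNReal.tsum_mul_left, ENNReal.tsum_mul_left, ENNReal.tsum_mul_left]
    _ ≤ ENNReal.ofReal δ * ENNReal.ofReal (2 * 4 ^ (3 : ℝ) * XX (fun k => (N k : ℝ) ^ (3 : ℝ)) w)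
        + ENNReal.ofReal C * ENNReal.ofReal (2 * 4 ^ (1 : ℝ) * XX (fun k => (N k : ℝ) ^ (1 : ℝ)) w)
        + ENNReal.ofReal ((As s + 32) * β) *
          ENNReal.ofReal (2 * 4 ^ γ * XX (fun k => (N k : ℝ) ^ γ) w)
        + ENNReal.ofReal (32 * β) * ENNReal.ofReal (52 * XX (fun k => (N k : ℝ) ^ γ) w) := by
        gcongr
        · exact sum_BB (by norm_num) (by norm_num) hr
        · exact sum_BB (by norm_num) (by norm_num) hr
        · exact sum_BB hγ0 hγ3 hr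
        · exact sum_Sn hs1 hs2 hw hr
    _ = ENNReal.ofReal (δ * (2 * 4 ^ (3 : ℝ) * XX (fun k => (N k : ℝ) ^ (3 : ℝ)) w)
        + C * (2 * 4 ^ (1 : ℝ) * XX (fun k => (N k : ℝ) ^ (1 : ℝ)) w)
        + (As s + 32) * β * (2 * 4 ^ γ * XX (fun k => (N k : ℝ) ^ γ) w)
        + 32 * β * (52 * XX (fun k => (N k : ℝ) ^ γ) w)) := by
        rw [← ENNReal.ofReal_mul hδ, ← ENNReal.ofReal_mul hC, ← ENNReal.ofReal_mul (by positivity),
          ← ENNReal.ofReal_mul (by positivity), ← ENNReal.ofReal_add (by positivity) (by positivity),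
          ← ENNReal.ofReal_add (by positivity) (by positivity),
          ← ENNReal.ofReal_add (by positivity) (by positivity)]
    _ ≤ _ := by
        apply ENNReal.ofReal_le_ofReal
        have q1 : XX (fun k => (N k : ℝ) ^ (3 : ℝ)) w = XX (fun k => (N k : ℝ) ^ 3) w := by
          unfold XX
          refine tsum_congr fun k => ?_
          have : (N k : ℝ) ^ (3 : ℝ) = (N k : ℝ) ^ 3 := by
            rw [← Real.rpow_natCast]
            norm_num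
          simp only [this]
        have q2 : XX (fun k => (N k : ℝ) ^ (1 : ℝ)) w = XX (fun k => (N k : ℝ) ^ 1) w := by
          unfold XX
          refine tsum_congr fun k => ?_
          simp only [Real.rpow_one, pow_one]
        have q3 : (4 : ℝ) ^ (3 : ℝ) = 64 := by norm_num
        rw [q1, q2, q3, Real.rpow_one]
        have q4 : (As s + 32) * β * (2 * 4 ^ γ * XX (fun k => (N k : ℝ) ^ γ) w)
            ≤ (As s + 32) * β * (2 * 64 * XX (fun k => (N k : ℝ) ^ γ) w) := by gcongr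
        unfold Ch
        nlinarith

end

/-- The estimate of the production of the norm with the weight `|k|`: the local triads are
estimated by the helical part with the sign `σ j`, and only for frequencies in the window
`κ j < |k| ≤ 2 ^ j`. -/
theorem prod_len_le {c : Fam} (h : RapV c) (hreal : ∀ k i, c (-k) i = (starRingEnd ℂ) (c k i))
    (hdiv : ∀ k, ∑ i, (k i : ℂ) * c k i = 0) {κ : ℕ → ℕ} {σ : ℕ → ℝ}
    (hσ : ∀ j, σ j = 1 ∨ σ j = -1) {s β : ℝ} (hs1 : 1 / 2 ≤ s) (hs2 : s < 5 / 2) (hβ0 : 0 ≤ β)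
    (hβ : ∀ j, ∑ l ∈ box (2 ^ j) \ box (κ j), (N l : ℝ) ^ (2 * s) * amp (hel (σ j) c) l ^ 2 ≤ β ^ 2)
    {δ C : ℝ} (hδ : 0 ≤ δ) (hC : 0 ≤ C) (hΛ : ∀ j, Sn (amp c) (κ j) ≤ δ * 4 ^ j + C) :
    |2 * Win.prod len c| ≤ 156 * (128 * δ * XX (fun k => (N k : ℝ) ^ 3) (amp c)
      + 8 * C * XX (fun k => (N k : ℝ) ^ 1) (amp c)
      + Ch s * β * XX (fun k => (N k : ℝ) ^ (7 / 2 - s)) (amp c)) := by
  have h1 := prod_le h hreal hdiv κ hσ
  have he : ∀ j k, 0 ≤ (fun j => amp (hel (σ j) c)) j k := fun j k => amp_nonneg _ k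
  have hw := amp_nonneg c
  have hCh := (Ch_pos s).le
  have x1 : 0 ≤ XX (fun k => (N k : ℝ) ^ 3) (amp c) := XX_nonneg fun k => by positivity
  have x2 : 0 ≤ XX (fun k => (N k : ℝ) ^ 1) (amp c) := XX_nonneg fun k => by positivity
  have x3 : 0 ≤ XX (fun k => (N k : ℝ) ^ (7 / 2 - s)) (amp c) := XX_nonneg fun k => by positivity
  rw [← ENNReal.ofReal_le_ofReal_iff (by positivity)]
  refine h1.trans ?_
  calc ∑' z, ENNReal.ofReal (26 * (KK z * GG κ (fun j => amp (hel (σ j) c)) (amp c) z))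
      = ENNReal.ofReal 26 *
        ∑' z, ENNReal.ofReal (KK z * GG κ (fun j => amp (hel (σ j) c)) (amp c) z) := by
        rw [← ENNReal.tsum_mul_left]
        refine tsum_congr fun z => ?_
        rw [ENNReal.ofReal_mul (by norm_num)]
    _ ≤ ENNReal.ofReal 26 * (6 * ENNReal.ofReal (128 * δ * XX (fun k => (N k : ℝ) ^ 3) (amp c)
      + 8 * C * XX (fun k => (N k : ℝ) ^ 1) (amp c)
      + Ch s * β * XX (fun k => (N k : ℝ) ^ (7 / 2 - s)) (amp c))) := by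
        gcongr
        refine (tsum_KK_le he hw).trans ?_
        gcongr
        exact (tsum_cg_le hw he).trans (sum_UU hw h.rapR he hs1 hs2 hβ0 hβ hδ hC hΛ)
    _ = _ := by
        have : (6 : ℝ≥0∞) = ENNReal.ofReal 6 := by norm_num
        rw [this, ← ENNReal.ofReal_mul (by norm_num), ← ENNReal.ofReal_mul (by norm_num)]
        congr 1
        ring

end Pool.Agent.Q63.Hel
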