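import Pool.Agent.Q63.Win.Defs

/-!
The helical decomposition of a divergence-free field.
-/

namespace Pool.Agent.Q63.Hel

open H459R3.NS Pool.Agent.Q63.Win

/-- The helical part with the sign `σ` of a family of Fourier coefficients: if `σ = ± 1` and
`k · c k = 0`, this is the component of `c k` in the eigenspace with the eigenvalue `σ |k|` of the
map `v ↦ i k × v`. -/
noncomputable def hel (σ : ℝ) (c : K3 → Fin 3 → ℂ) (k : K3) (i : Fin 3) : ℂ :=
  (c k i + σ * (Complex.I * (crossProduct (fun j => (k j : ℂ)) (c k)) i) / len k) / 2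

/-- `∑ |k|^(2 s) |v̂^σ(k)|²` over the frequencies `k` with `K^θ < |k| ≤ K`, where `v^σ` is the
helical part of `v` with the sign `σ`. -/
noncomputable def helWindow (σ s θ K : ℝ) (v : V → V) : ℝ :=
  ∑' k : K3, if K ^ θ < len k ∧ len k ≤ K then
    len k ^ (2 * s) * ∑ i, ‖hel σ (fun l j => fr (fun y => v y j) l) k i‖ ^ 2 else 0

end Pool.Agent.Q63.Hel
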