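import Pool.Agent.Q63.Hel.Time
import Pool.Agent.Q63.Win.Main

/-!
The regularity criterion in terms of the helical parts, scale by scale.
-/

open MeasureTheory Set Filter Topology
open scoped ENNReal

namespace Pool.Agent.Q63.Hel

open H459R3.NS Pool.Agent.Q63.Win

/-- the lower ends of the windows -/
noncomputable def kap (θ : ℝ) (j₀ j : ℕ) : ℕ :=
  if j + 1 < j₀ then 2 ^ j else ⌊((2 : ℝ) ^ (j + 1)) ^ θ⌋₊

theorem kap_le {θ : ℝ} (hθ0 : 0 < θ) (hθ : θ < 4 / 5) (j₀ : ℕ) {δ : ℝ} (hδ : 0 < δ) :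
    ∃ C, 0 ≤ C ∧ ∀ j, (kap θ j₀ j : ℝ) ^ (5 / 2 : ℝ) ≤ δ * 4 ^ j + C := by
  set p : ℝ := 5 / 2 * θ with hp
  have hp0 : 0 ≤ p := by positivity
  have hp2 : p < 2 := by rw [hp]; linarith
  set C₁ : ℝ := (δ / 4) ^ (-(p / (2 - p))) * 1 ^ (2 / (2 - p)) with hC₁
  have hC₁0 : 0 ≤ C₁ := by positivity
  refine ⟨C₁ + ((2 : ℝ) ^ j₀) ^ (5 / 2 : ℝ), by positivity, fun j => ?_⟩
  have h4 : (4 : ℝ) ^ j = 2 ^ j * 2 ^ j := by
    rw [show (4 : ℝ) = 2 * 2 by norm_num, mul_pow]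
  unfold kap
  split_ifs with h
  · have h1 : ((2 ^ j : ℕ) : ℝ) ≤ 2 ^ j₀ := by
      push_cast
      exact pow_le_pow_right₀ (by norm_num) (by omega)
    have h2 : ((2 ^ j : ℕ) : ℝ) ^ (5 / 2 : ℝ) ≤ ((2 : ℝ) ^ j₀) ^ (5 / 2 : ℝ) := by gcongr
    have h3 : 0 ≤ δ * 4 ^ j := by positivity
    linarith
  · set x : ℝ := (2 : ℝ) ^ (j + 1) with hx
    have hx0 : 0 < x := by positivity
    have h1 : (⌊x ^ θ⌋₊ : ℝ) ≤ x ^ θ := Nat.floor_le (by positivity)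
    have h2 : (⌊x ^ θ⌋₊ : ℝ) ^ (5 / 2 : ℝ) ≤ x ^ p := by
      calc (⌊x ^ θ⌋₊ : ℝ) ^ (5 / 2 : ℝ) ≤ (x ^ θ) ^ (5 / 2 : ℝ) := by gcongr
        _ = x ^ p := by
            rw [← Real.rpow_mul hx0.le, hp]
            ring_nf
    have h3 := young2 (γ := p) (x := x) (b := 1) (ν := δ / 4) hp0 hp2 hx0.le zero_le_one
      (by positivity)
    have h5 : δ / 4 * x ^ 2 = δ * 4 ^ j := by
      rw [hx, h4, pow_succ]
      ring
    rw [one_mul, h5] at h3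
    have h6 : 0 ≤ ((2 : ℝ) ^ j₀) ^ (5 / 2 : ℝ) := by positivity
    linarith

theorem helWindow_ge {θ s σ : ℝ} (hs : 0 ≤ s) {j₀ j : ℕ} (hj : ¬ j + 1 < j₀) (v : V → V) :
    ∑ l ∈ box (2 ^ j) \ box (kap θ j₀ j), (N l : ℝ) ^ (2 * s) * amp (hel σ (cof v)) l ^ 2
      ≤ helWindow σ s θ (2 ^ (j + 1)) v := by
  have hnn : ∀ k : K3, 0 ≤ (if ((2 : ℝ) ^ (j + 1)) ^ θ < len k ∧ len k ≤ (2 : ℝ) ^ (j + 1) then
      len k ^ (2 * s) * ∑ i, ‖hel σ (fun l j => fr (fun y => v y j) l) k i‖ ^ 2 else 0) := by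
    intro k
    have := len_nonneg k
    split_ifs
    · have : 0 ≤ ∑ i, ‖hel σ (fun l j => fr (fun y => v y j) l) k i‖ ^ 2 :=
        Finset.sum_nonneg fun _ _ => by positivity
      positivity
    · exact le_rfl
  have hsum : Summable fun k : K3 =>
      (if ((2 : ℝ) ^ (j + 1)) ^ θ < len k ∧ len k ≤ (2 : ℝ) ^ (j + 1) then
      len k ^ (2 * s) * ∑ i, ‖hel σ (fun l j => fr (fun y => v y j) l) k i‖ ^ 2 else 0) := by
    refine summable_of_ne_finset_zero (s := box (2 ^ (j + 1))) fun k hk => ?_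
    rw [if_neg]
    rintro ⟨-, h⟩
    rw [mem_box, not_le] at hk
    have h1 : (N k : ℝ) ≤ (2 : ℝ) ^ (j + 1) := (len_ge k).trans h
    have h2 : N k ≤ 2 ^ (j + 1) := by exact_mod_cast h1
    omega
  unfold helWindow
  refine le_trans ?_ (hsum.sum_le_tsum (box (2 ^ j) \ box (kap θ j₀ j)) fun k _ => hnn k)
  refine Finset.sum_le_sum fun l hl => ?_
  rw [Finset.mem_sdiff, mem_box, mem_box, not_le] at hl
  have a1 := len_ge l
  have a2 := len_le_two l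
  have a3 : ((2 : ℝ) ^ (j + 1)) ^ θ < len l := by
    refine lt_of_lt_of_le ?_ a1
    have h1 := hl.2
    unfold kap at h1
    rw [if_neg hj] at h1
    exact (Nat.floor_lt (by positivity)).1 h1
  have a4 : len l ≤ (2 : ℝ) ^ (j + 1) := by
    have : (N l : ℝ) ≤ 2 ^ j := by exact_mod_cast hl.1
    rw [pow_succ]
    linarith
  rw [if_pos ⟨a3, a4⟩, amp_sq]
  have : 0 ≤ ∑ i, ‖hel σ (cof v) l i‖ ^ 2 := Finset.sum_nonneg fun _ _ => by positivity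
  show (N l : ℝ) ^ (2 * s) * ∑ i, ‖hel σ (cof v) l i‖ ^ 2 ≤
    len l ^ (2 * s) * ∑ i, ‖hel σ (cof v) l i‖ ^ 2
  gcongr

theorem Sn_low {w : K3 → ℝ} (hr : RapR w) {E : ℝ} (hE0 : 0 ≤ E)
    (hE : XX (fun _ => 1) w ≤ E ^ 2) (R : ℕ) :
    Sn w R ≤ As 0 * (R : ℝ) ^ (5 / 2 : ℝ) * E := by
  have s1 : Summable fun k => w k ^ 2 := by
    have := XX_summable (φ := fun _ => (1 : ℝ)) ⟨1, 0, zero_le_one, fun k => by simp⟩ hr
    simpa using this
  have e0 : Sn w R = ∑ l ∈ (box R).erase 0, (N l : ℝ) * w l := by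
    unfold Sn
    rw [Finset.sum_erase]
    rw [N_eq_zero.2 rfl]
    simp
  have h := cs_sum (w := w) (F := (box R).erase 0) (R := R) (s := 0) (Bd := E)
    (Finset.erase_subset _ _) (Finset.notMem_erase _ _) (by norm_num) ?_ hE0
  · rw [sub_zero, ← e0] at h
    exact h
  · refine le_trans ?_ hE
    unfold XX
    simp only [mul_zero, Real.rpow_zero, one_mul]
    exact s1.sum_le_tsum _ fun _ _ => sq_nonneg _

/-- the general criterion -/
theorem crit {ν T : ℝ} {u : ℝ → V → V} {p : ℝ → V → ℝ} (h : IsSol ν T u p) (hν : 0 < ν)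
    {θ : ℝ} (hθ0 : 0 < θ) (hθ : θ < 4 / 5) {s : ℝ} (hs1 : 1 / 2 ≤ s) (hs2 : s < 5 / 2)
    {t₀ : ℝ} (ht₀ : t₀ ∈ Ico 0 T)
    {β g : ℝ → ℝ} {j₀ : ℕ} (hβ : ∀ t ∈ Ioo t₀ T, 0 ≤ β t ∧ ∀ j : ℕ, j₀ ≤ j →
      min (helWindow 1 s θ (2 ^ j) (u t)) (helWindow (-1) s θ (2 ^ j) (u t)) ≤ β t ^ 2)
    (hg0 : ∀ t, 0 ≤ g t) (hgi : IntegrableOn g (Ioo t₀ T))
    (hg : ∀ t ∈ Ioo t₀ T, ∀ x : ℝ, 0 ≤ x → 156 * Ch s * β t * x ^ (5 / 2 - s) ≤ ν * x ^ 2 + g t) :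
    ∃ C, ∀ t ∈ Ico 0 T, ∀ x i, |u t x i| ≤ C := by
  have hf := fsol_of_isSol h
  have hm := msym_pol (ν := ν) hν.le
  have hmν := msym_ge (ν := ν) hν.le
  set c : ℝ → Fam := fun t => cof (u t) with hc
  set a : ℝ := (t₀ + T) / 2 with ha
  have ha0 : 0 < a := by rw [ha]; linarith [ht₀.1, ht₀.2]
  have haT : a < T := by rw [ha]; linarith [ht₀.2]
  have hta : t₀ < a := by rw [ha]; linarith [ht₀.2]
  set E := Real.sqrt (XX (fun _ => 1) (amp (c a))) with hEdef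
  have hE0 : 0 ≤ E := Real.sqrt_nonneg _
  have hE2 : E ^ 2 = XX (fun _ => 1) (amp (c a)) := Real.sq_sqrt (XX_nonneg fun _ => zero_le_one)
  have hA0 := As_nonneg 0
  set δ₀ : ℝ := ν / (156 * 128 * (As 0 * E + 1)) with hδ₀
  have hδ₀0 : 0 < δ₀ := by positivity
  obtain ⟨C₀, hC₀, hκ⟩ := kap_le hθ0 hθ j₀ hδ₀0
  set δ := As 0 * E * δ₀ with hδ
  have hδ0 : 0 ≤ δ := by positivity
  have hδν : 156 * (128 * δ) ≤ ν := by
    have h1 : 156 * (128 * δ) = ν * (As 0 * E / (As 0 * E + 1)) := by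
      rw [hδ, hδ₀]
      field_simp
    rw [h1]
    have h2 : As 0 * E / (As 0 * E + 1) ≤ 1 := by
      rw [div_le_one (by positivity)]
      linarith
    nlinarith
  set C := As 0 * E * C₀ with hC
  have hC0 : 0 ≤ C := by positivity
  have hCh := (Ch_pos s).le
  have hgi' : IntegrableOn (fun t => 156 * (8 * C) + g t) (Ico a T) := by
    refine Integrable.add ?_ (hgi.mono_set fun t ht => ⟨hta.trans_le ht.1, ht.2⟩)
    exact integrableOn_const (by simp) enorm_ne_top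
  suffices hprod : ∀ t ∈ Ico a T, |2 * Win.prod len (c t)| ≤
      2 * ν * XX (fun k => (N k : ℝ) ^ 3) (amp (c t))
        + (156 * (8 * C) + g t) * XX len (amp (c t)) by
    obtain ⟨C', hC'⟩ := hel_high (c := c) hf hm hν hmν ha0 (G := fun t => 156 * (8 * C) + g t)
      (fun t => by have := hg0 t; positivity) hgi' hprod
    exact bounded_of_XX h hν ha0 haT hC'
  intro t ht
  have htI : t ∈ Ioo 0 T := ⟨ha0.trans_le ht.1, ht.2⟩
  have htJ : t ∈ Ioo t₀ T := ⟨hta.trans_le ht.1, ht.2⟩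
  obtain ⟨hβ0, hβt⟩ := hβ t htJ
  have hRV := hf.rapV htI
  have hR := hRV.rapR
  have hEt : XX (fun _ => 1) (amp (c t)) ≤ E ^ 2 :=
    (hf.energy_anti hm hν.le hmν ha0 ht).trans hE2.ge
  classical
  set σ : ℕ → ℝ := fun j =>
    if helWindow 1 s θ (2 ^ (j + 1)) (u t) ≤ β t ^ 2 then 1 else -1 with hσdef
  have hσ : ∀ j, σ j = 1 ∨ σ j = -1 := by
    intro j
    rw [hσdef]
    simp only
    split_ifs
    · exact Or.inl rfl
    · exact Or.inr rfl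
  have hwin : ∀ j, ∑ l ∈ box (2 ^ j) \ box (kap θ j₀ j),
      (N l : ℝ) ^ (2 * s) * amp (hel (σ j) (c t)) l ^ 2 ≤ β t ^ 2 := by
    intro j
    rcases lt_or_ge (j + 1) j₀ with hj | hj
    · have : box (2 ^ j) \ box (kap θ j₀ j) = ∅ := by
        unfold kap
        rw [if_pos hj, Finset.sdiff_self]
      rw [this, Finset.sum_empty]
      positivity
    · refine (helWindow_ge (by linarith) (not_lt.2 hj) (u t)).trans ?_
      have h1 := hβt (j + 1) hj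
      rw [hσdef]
      simp only
      split_ifs with h2
      · exact h2
      · rcases min_le_iff.1 h1 with h3 | h3
        · exact absurd h3 h2
        · exact h3
  have hΛ : ∀ j, Sn (amp (c t)) (kap θ j₀ j) ≤ δ * 4 ^ j + C := by
    intro j
    refine (Sn_low hR hE0 hEt _).trans ?_
    calc As 0 * (kap θ j₀ j : ℝ) ^ (5 / 2 : ℝ) * E
        = As 0 * E * (kap θ j₀ j : ℝ) ^ (5 / 2 : ℝ) := by ring
      _ ≤ As 0 * E * (δ₀ * 4 ^ j + C₀) := by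
          have := hκ j
          gcongr
      _ = δ * 4 ^ j + C := by rw [hδ, hC]; ring
  have key := prod_len_le hRV (hf.real t htI) (hf.div t htI) hσ hs1 hs2 hβ0 hwin hδ0 hC0 hΛ
  refine key.trans ?_
  have x3 : 0 ≤ XX (fun k => (N k : ℝ) ^ 3) (amp (c t)) := XX_nonneg fun k => by positivity
  have x1 : 0 ≤ XX (fun k => (N k : ℝ) ^ 1) (amp (c t)) := XX_nonneg fun k => by positivity
  have h1 : XX (fun k => (N k : ℝ) ^ 1) (amp (c t)) ≤ XX len (amp (c t)) :=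
    XX_mono (pol_pow 1) pol_len hR fun k => by rw [pow_one]; exact len_ge k
  have hgt := hg0 t
  have h2 : 156 * (Ch s * β t * XX (fun k => (N k : ℝ) ^ (7 / 2 - s)) (amp (c t)))
      ≤ ν * XX (fun k => (N k : ℝ) ^ 3) (amp (c t))
        + g t * XX (fun k => (N k : ℝ) ^ 1) (amp (c t)) := by
    unfold XX
    have s3 := XX_summable (pol_pow 3) hR
    have s1 := XX_summable (pol_pow 1) hR
    have s2 := XX_summable (pol_rpow (γ := 7 / 2 - s) (by linarith) (by linarith)) hR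
    rw [← mul_assoc, ← tsum_mul_left, ← tsum_mul_left, ← tsum_mul_left,
      ← (s3.mul_left ν).tsum_add (s1.mul_left (g t))]
    refine (s2.mul_left _).tsum_le_tsum (fun k => ?_) ((s3.mul_left ν).add (s1.mul_left (g t)))
    have h3 := hg t htJ (N k) (Nat.cast_nonneg _)
    have hN : (0 : ℝ) ≤ N k := Nat.cast_nonneg _
    have e : (N k : ℝ) ^ (7 / 2 - s) = (N k : ℝ) ^ (5 / 2 - s) * N k := by
      rw [← Real.rpow_add_one' hN (by linarith)]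
      congr 1
      ring
    calc 156 * (Ch s * β t) * ((N k : ℝ) ^ (7 / 2 - s) * amp (c t) k ^ 2)
        = (156 * Ch s * β t * (N k : ℝ) ^ (5 / 2 - s)) * (N k * amp (c t) k ^ 2) := by
          rw [e]; ring
      _ ≤ (ν * (N k : ℝ) ^ 2 + g t) * (N k * amp (c t) k ^ 2) := by gcongr
      _ = _ := by ring
  have h4 : 156 * (128 * δ * XX (fun k => (N k : ℝ) ^ 3) (amp (c t)))
      ≤ ν * XX (fun k => (N k : ℝ) ^ 3) (amp (c t)) := by
    calc 156 * (128 * δ * XX (fun k => (N k : ℝ) ^ 3) (amp (c t)))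
        = 156 * (128 * δ) * XX (fun k => (N k : ℝ) ^ 3) (amp (c t)) := by ring
      _ ≤ _ := by gcongr
  have h5 : 156 * (8 * C * XX (fun k => (N k : ℝ) ^ 1) (amp (c t)))
      ≤ 156 * (8 * C) * XX len (amp (c t)) := by
    calc 156 * (8 * C * XX (fun k => (N k : ℝ) ^ 1) (amp (c t)))
        = 156 * (8 * C) * XX (fun k => (N k : ℝ) ^ 1) (amp (c t)) := by ring
      _ ≤ _ := by gcongr
  have h6 : g t * XX (fun k => (N k : ℝ) ^ 1) (amp (c t)) ≤ g t * XX len (amp (c t)) := by gcongr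
  nlinarith

/-- the criterion for `q < ∞` -/
theorem crit_q {ν T : ℝ} {u : ℝ → V → V} {p : ℝ → V → ℝ} (h : IsSol ν T u p) (hν : 0 < ν)
    {θ : ℝ} (hθ0 : 0 < θ) (hθ : θ < 4 / 5) {s : ℝ} (hs1 : 1 / 2 < s) (hs2 : s < 5 / 2)
    {t₀ : ℝ} (ht₀ : t₀ ∈ Ico 0 T)
    {β : ℝ → ℝ} {j₀ : ℕ} (hβ : ∀ t ∈ Ioo t₀ T, 0 ≤ β t ∧ ∀ j : ℕ, j₀ ≤ j →
      min (helWindow 1 s θ (2 ^ j) (u t)) (helWindow (-1) s θ (2 ^ j) (u t)) ≤ β t ^ 2)
    (hβi : IntegrableOn (fun t => β t ^ (4 / (2 * s - 1))) (Ioo t₀ T)) :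
    ∃ C, ∀ t ∈ Ico 0 T, ∀ x i, |u t x i| ≤ C := by
  have h2s : 0 < 2 * s - 1 := by linarith
  have hCh := (Ch_pos s).le
  set q : ℝ := 4 / (2 * s - 1) with hq
  have e1 : (5 / 2 - s) / (2 - (5 / 2 - s)) = (5 - 2 * s) / (2 * s - 1) := by
    rw [div_eq_div_iff (by linarith) (by linarith)]
    ring
  have e2 : 2 / (2 - (5 / 2 - s)) = q := by
    rw [hq, div_eq_div_iff (by linarith) (by linarith)]
    ring
  set D : ℝ := ν ^ (-((5 - 2 * s) / (2 * s - 1))) * (156 * Ch s) ^ q with hD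
  have hD0 : 0 ≤ D := by positivity
  refine crit h hν hθ0 hθ hs1.le hs2 ht₀ hβ (g := fun t => D * |β t| ^ q) (fun t => by positivity)
    ?_ fun t ht x hx => ?_
  · have : IntegrableOn (fun t => D * β t ^ q) (Ioo t₀ T) := hβi.const_mul D
    refine this.congr_fun (fun t ht => ?_) measurableSet_Ioo
    simp only
    rw [abs_of_nonneg (hβ t ht).1]
  · have hβ0 := (hβ t ht).1
    have hy := young2 (γ := 5 / 2 - s) (x := x) (b := 156 * Ch s * β t) (ν := ν) (by linarith)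
      (by linarith) hx (by positivity) hν
    rw [e1, e2] at hy
    refine hy.trans (le_of_eq ?_)
    rw [Real.mul_rpow (by positivity) hβ0, abs_of_nonneg hβ0, hD]
    ring

/-- the endpoint -/
theorem crit_inf {ν T : ℝ} {u : ℝ → V → V} {p : ℝ → V → ℝ} (h : IsSol ν T u p) (hν : 0 < ν)
    {θ : ℝ} (hθ0 : 0 < θ) (hθ : θ < 4 / 5) {t₀ : ℝ} (ht₀ : t₀ ∈ Ico 0 T) {j₀ : ℕ}
    (hβ : ∀ t ∈ Ioo t₀ T, ∀ j : ℕ, j₀ ≤ j →
      min (helWindow 1 (1 / 2) θ (2 ^ j) (u t)) (helWindow (-1) (1 / 2) θ (2 ^ j) (u t))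
        ≤ (1 / (156 * Ch (1 / 2)) * ν) ^ 2) :
    ∃ C, ∀ t ∈ Ico 0 T, ∀ x i, |u t x i| ≤ C := by
  have hCh := Ch_pos (1 / 2)
  refine crit h hν hθ0 hθ (s := 1 / 2) le_rfl (by norm_num) ht₀
    (β := fun _ => 1 / (156 * Ch (1 / 2)) * ν) (g := fun _ => 0)
    (fun t ht => ⟨by positivity, hβ t ht⟩) (fun _ => le_rfl) integrableOn_zero fun t _ x _ => ?_
  have e : ((5 : ℝ) / 2 - 1 / 2) = ((2 : ℕ) : ℝ) := by norm_num
  rw [e, Real.rpow_natCast, add_zero]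
  apply le_of_eq
  field_simp

end Pool.Agent.Q63.Hel
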