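import Pool.Agent.Q63.Hel.Defs
import Pool.Agent.Q63.Win.Alg

/-!
Algebra of the helical decomposition.
-/

open Set Filter Topology
open scoped ENNReal Matrix

namespace Pool.Agent.Q63.Hel

open H459R3.NS Pool.Agent.Q63.Win

theorem len_nonneg (k : K3) : 0 ≤ len k := Real.sqrt_nonneg _

theorem len_sq (k : K3) : len k ^ 2 = ∑ j, (k j : ℝ) ^ 2 :=
  Real.sq_sqrt (Finset.sum_nonneg fun _ _ => sq_nonneg _)

theorem len_neg (k : K3) : len (-k) = len k := by
  unfold len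
  congr 1
  refine Finset.sum_congr rfl fun j _ => ?_
  simp

theorem len_eq_zero {k : K3} : len k = 0 ↔ k = 0 := by
  constructor
  · intro h
    have h1 : ∑ j, (k j : ℝ) ^ 2 = 0 := by rw [← len_sq, h]; norm_num
    rw [Finset.sum_eq_zero_iff_of_nonneg fun _ _ => sq_nonneg _] at h1
    funext j
    have := h1 j (Finset.mem_univ j)
    have h2 : (k j : ℝ) = 0 := by simpa using this
    exact_mod_cast h2
  · rintro rfl
    simp [len]

/-- the vector of a frequency -/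
noncomputable def ve (k : K3) : EuclideanSpace ℝ (Fin 3) := WithLp.toLp 2 fun j => (k j : ℝ)

theorem len_eq_norm (k : K3) : len k = ‖ve k‖ := by
  rw [EuclideanSpace.norm_eq]
  unfold len ve
  congr 1
  refine Finset.sum_congr rfl fun j _ => ?_
  simp

theorem abs_len_sub (k l : K3) : |len k - len l| ≤ len (k + l) := by
  have h : ve (k + l) = ve k - ve (-l) := by
    ext j
    simp [ve]
  rw [← len_neg l, len_eq_norm, len_eq_norm, len_eq_norm (k + l), h]
  exact abs_norm_sub_norm_le _ _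

/-- the vector product with a frequency -/
noncomputable def cr (k : K3) (v : Fin 3 → ℂ) : Fin 3 → ℂ :=
  crossProduct (fun j => (k j : ℂ)) v

theorem cr_zero' (k : K3) (v : Fin 3 → ℂ) : cr k v 0 = k 1 * v 2 - k 2 * v 1 := by
  simp [cr, crossProduct]

theorem cr_one' (k : K3) (v : Fin 3 → ℂ) : cr k v 1 = k 2 * v 0 - k 0 * v 2 := by
  simp [cr, crossProduct]

theorem cr_two' (k : K3) (v : Fin 3 → ℂ) : cr k v 2 = k 0 * v 1 - k 1 * v 0 := by
  simp [cr, crossProduct]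

theorem hel_def' (σ : ℝ) (c : Fam) (k : K3) (i : Fin 3) :
    hel σ c k i = (c k i + σ * (Complex.I * cr k (c k) i) / len k) / 2 := rfl

theorem hel_add (c : Fam) (k : K3) (i : Fin 3) : hel 1 c k i + hel (-1) c k i = c k i := by
  unfold hel
  push_cast
  ring

/-- `k × (k × v) = - |k|² v` if `k · v = 0` -/
theorem cr_cr {k : K3} {v : Fin 3 → ℂ} (h : ∑ i, (k i : ℂ) * v i = 0) (i : Fin 3) :
    cr k (cr k v) i = -((len k : ℂ) ^ 2 * v i) := by
  have e : ((len k : ℂ) ^ 2) = ∑ j, (k j : ℂ) ^ 2 := by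
    have := len_sq k
    have h2 : ((len k ^ 2 : ℝ) : ℂ) = ((∑ j, (k j : ℝ) ^ 2 : ℝ) : ℂ) := by rw [this]
    push_cast at h2
    exact h2
  rw [e]
  rw [Fin.sum_univ_three] at h ⊢
  fin_cases i
  · show cr k (cr k v) 0 = _
    rw [cr_zero', cr_two', cr_one']
    show _ = -(((k 0 : ℂ) ^ 2 + (k 1 : ℂ) ^ 2 + (k 2 : ℂ) ^ 2) * v 0)
    linear_combination (k 0 : ℂ) * h
  · show cr k (cr k v) 1 = _
    rw [cr_one', cr_zero', cr_two']
    show _ = -(((k 0 : ℂ) ^ 2 + (k 1 : ℂ) ^ 2 + (k 2 : ℂ) ^ 2) * v 1)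
    linear_combination (k 1 : ℂ) * h
  · show cr k (cr k v) 2 = _
    rw [cr_two', cr_one', cr_zero']
    show _ = -(((k 0 : ℂ) ^ 2 + (k 1 : ℂ) ^ 2 + (k 2 : ℂ) ^ 2) * v 2)
    linear_combination (k 2 : ℂ) * h

theorem cr_add_mul (k : K3) (v w : Fin 3 → ℂ) (a b : ℂ) (i : Fin 3) :
    cr k (fun j => a * v j + b * w j) i = a * cr k v i + b * cr k w i := by
  fin_cases i
  · show cr k _ 0 = a * cr k v 0 + b * cr k w 0
    simp only [cr_zero']
    ring
  · show cr k _ 1 = a * cr k v 1 + b * cr k w 1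
    simp only [cr_one']
    ring
  · show cr k _ 2 = a * cr k v 2 + b * cr k w 2
    simp only [cr_two']
    ring

/-- the eigenvalue equation -/
theorem hel_eig {σ : ℝ} (hσ : σ ^ 2 = 1) {c : Fam} {k : K3} (h : ∑ i, (k i : ℂ) * c k i = 0)
    (i : Fin 3) : (len k : ℂ) * hel σ c k i = σ * Complex.I * cr k (hel σ c k) i := by
  have e1 : hel σ c k = fun j => (1 / 2 : ℂ) * c k j +
      (σ * Complex.I / (2 * len k)) * cr k (c k) j := by
    funext j
    rw [hel_def']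
    ring
  rw [e1, cr_add_mul, cr_cr h]
  have hσ' : (σ : ℂ) ^ 2 = 1 := by exact_mod_cast congrArg (fun x : ℝ => (x : ℂ)) hσ
  have hI : Complex.I ^ 2 = -1 := Complex.I_sq
  rcases eq_or_ne (len k : ℂ) 0 with h0 | h0
  · have hk : k = 0 := len_eq_zero.1 (by exact_mod_cast h0)
    subst hk
    have hz : cr 0 (c 0) i = 0 := by
      fin_cases i
      · show cr 0 (c 0) 0 = 0
        rw [cr_zero']; simp
      · show cr 0 (c 0) 1 = 0
        rw [cr_one']; simp
      · show cr 0 (c 0) 2 = 0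
        rw [cr_two']; simp
    simp [h0, hz]
  · show (len k : ℂ) * (1 / 2 * c k i + σ * Complex.I / (2 * len k) * cr k (c k) i) = _
    field_simp
    linear_combination ((len k : ℂ) * c k i * (σ : ℂ) ^ 2) * hI - (len k : ℂ) * c k i * hσ'

theorem hel_div {σ : ℝ} {c : Fam} (h : ∀ k, ∑ i, (k i : ℂ) * c k i = 0) (k : K3) :
    ∑ i, (k i : ℂ) * hel σ c k i = 0 := by
  have h1 := h k
  have e : ∑ i, (k i : ℂ) * hel σ c k i = (∑ i, (k i : ℂ) * c k i) / 2 +
      σ * Complex.I / (2 * len k) * ∑ i, (k i : ℂ) * cr k (c k) i := by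
    rw [Finset.mul_sum, Finset.sum_div, ← Finset.sum_add_distrib]
    refine Finset.sum_congr rfl fun i _ => ?_
    rw [hel_def']
    ring
  have e2 : ∑ i, (k i : ℂ) * cr k (c k) i = 0 := by
    rw [Fin.sum_univ_three, cr_zero', cr_one', cr_two']
    ring
  rw [e, e2, h1]
  simp

theorem cr_conj (k : K3) (v : Fin 3 → ℂ) (i : Fin 3) :
    cr (-k) (fun j => (starRingEnd ℂ) (v j)) i = -(starRingEnd ℂ) (cr k v i) := by
  fin_cases i
  · show cr (-k) _ 0 = -(starRingEnd ℂ) (cr k v 0)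
    simp only [cr_zero', Pi.neg_apply, map_sub, map_mul, map_intCast]
    push_cast
    ring
  · show cr (-k) _ 1 = -(starRingEnd ℂ) (cr k v 1)
    simp only [cr_one', Pi.neg_apply, map_sub, map_mul, map_intCast]
    push_cast
    ring
  · show cr (-k) _ 2 = -(starRingEnd ℂ) (cr k v 2)
    simp only [cr_two', Pi.neg_apply, map_sub, map_mul, map_intCast]
    push_cast
    ring

theorem hel_real {σ : ℝ} {c : Fam} (h : ∀ k i, c (-k) i = (starRingEnd ℂ) (c k i)) (k : K3)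
    (i : Fin 3) : hel σ c (-k) i = (starRingEnd ℂ) (hel σ c k i) := by
  have e1 : c (-k) = fun j => (starRingEnd ℂ) (c k j) := funext (h k)
  rw [hel_def', hel_def', len_neg, h, e1, cr_conj]
  have e3 : (starRingEnd ℂ) 2 = 2 := Complex.conj_ofNat 2
  simp only [map_div₀, map_add, map_mul, Complex.conj_I, Complex.conj_ofReal, e3]
  ring

theorem sq_cr_le (k : K3) (v : Fin 3 → ℂ) :
    ∑ i, ‖cr k v i‖ ^ 2 ≤ len k ^ 2 * ∑ i, ‖v i‖ ^ 2 := by
  rw [len_sq]
  simp only [Fin.sum_univ_three, cr_zero', cr_one', cr_two', Complex.sq_norm, Complex.normSq_apply]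
  simp only [Complex.sub_re, Complex.sub_im, Complex.mul_re, Complex.mul_im, Complex.intCast_re,
    Complex.intCast_im, zero_mul, sub_zero, add_zero]
  nlinarith [sq_nonneg ((k 0 : ℝ) * (v 0).re + (k 1 : ℝ) * (v 1).re + (k 2 : ℝ) * (v 2).re),
    sq_nonneg ((k 0 : ℝ) * (v 0).im + (k 1 : ℝ) * (v 1).im + (k 2 : ℝ) * (v 2).im)]

theorem amp_hel_le {σ : ℝ} (hσ : σ ^ 2 = 1) (c : Fam) (k : K3) : amp (hel σ c) k ≤ amp c k := by
  unfold amp
  apply Real.sqrt_le_sqrt
  have hσ1 : |σ| = 1 := by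
    have : |σ| ^ 2 = 1 := by rw [sq_abs, hσ]
    nlinarith [abs_nonneg σ]
  set x : Fin 3 → ℂ := fun i => σ * (Complex.I * cr k (c k) i) / len k with hx
  have h1 : ∀ i, ‖hel σ c k i‖ ^ 2 ≤ (‖c k i‖ ^ 2 + ‖x i‖ ^ 2) / 2 := by
    intro i
    rw [hel_def']
    have e : ‖(c k i + x i) / 2‖ = ‖c k i + x i‖ / 2 := by
      rw [norm_div, Complex.norm_ofNat]
    show ‖(c k i + x i) / 2‖ ^ 2 ≤ _
    rw [e]
    have := norm_add_le (c k i) (x i)
    have h0 := norm_nonneg (c k i + x i)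
    nlinarith [sq_nonneg (‖c k i‖ - ‖x i‖)]
  have h2 : ∑ i, ‖x i‖ ^ 2 ≤ ∑ i, ‖c k i‖ ^ 2 := by
    rcases eq_or_ne (len k) 0 with h0 | h0
    · have : ∀ i, ‖x i‖ ^ 2 = 0 := by
        intro i
        rw [hx]
        simp [h0]
      rw [Finset.sum_congr rfl fun i _ => this i]
      simp only [Finset.sum_const_zero]
      exact Finset.sum_nonneg fun _ _ => by positivity
    · have hpos : 0 < len k := lt_of_le_of_ne (len_nonneg k) (Ne.symm h0)
      have e : ∀ i, ‖x i‖ ^ 2 = ‖cr k (c k) i‖ ^ 2 / len k ^ 2 := by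
        intro i
        rw [hx]
        simp only [norm_div, norm_mul, Complex.norm_I, Complex.norm_real, Real.norm_eq_abs, hσ1,
          abs_of_pos hpos, one_mul, div_pow]
      rw [Finset.sum_congr rfl fun i _ => e i, ← Finset.sum_div, div_le_iff₀ (by positivity),
        mul_comm]
      exact sq_cr_le k (c k)
  calc ∑ i, ‖hel σ c k i‖ ^ 2 ≤ ∑ i, (‖c k i‖ ^ 2 + ‖x i‖ ^ 2) / 2 :=
        Finset.sum_le_sum fun i _ => h1 i
    _ = (∑ i, ‖c k i‖ ^ 2 + ∑ i, ‖x i‖ ^ 2) / 2 := by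
        rw [← Finset.sum_div, Finset.sum_add_distrib]
    _ ≤ ∑ i, ‖c k i‖ ^ 2 := by linarith

theorem amp_hel_neg {σ : ℝ} {c : Fam} (h : ∀ k i, c (-k) i = (starRingEnd ℂ) (c k i)) (k : K3) :
    amp (hel σ c) (-k) = amp (hel σ c) k := by
  unfold amp
  congr 1
  refine Finset.sum_congr rfl fun i _ => ?_
  rw [hel_real h, RCLike.norm_conj]

theorem amp_neg {c : Fam} (h : ∀ k i, c (-k) i = (starRingEnd ℂ) (c k i)) (k : K3) :
    amp c (-k) = amp c k := by
  unfold amp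
  simp_rw [h, RCLike.norm_conj]

theorem hel_rap {σ : ℝ} (hσ : σ ^ 2 = 1) {c : Fam} (h : RapV c) : RapV (hel σ c) := by
  intro n
  obtain ⟨M, hM0, hM⟩ := h.amp n
  refine ⟨M, fun k i => ?_⟩
  calc (1 + (N k : ℝ)) ^ n * ‖hel σ c k i‖ ≤ (1 + (N k : ℝ)) ^ n * amp c k := by
        have := (norm_le_amp (hel σ c) k i).trans (amp_hel_le hσ c k)
        gcongr
    _ ≤ M := hM k

end Pool.Agent.Q63.Hel
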