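import Pool.Agent.Q63.Hel.Can
import Pool.Agent.Q63.Win.Diff

/-!
Estimates for the sums over ordered triads, scale by scale.
-/

open Set Filter Topology
open scoped ENNReal

namespace Pool.Agent.Q63.Hel

open H459R3.NS Pool.Agent.Q63.Win

theorem le_two_pow_cl (n : ℕ) : n ≤ 2 ^ cl n := Nat.le_pow_clog one_lt_two n

theorem two_pow_cl_lt {n : ℕ} (h : n ≠ 0) : 2 ^ cl n < 4 * n := by
  rcases Nat.lt_or_ge 1 n with h1 | h1
  · have h2 := Nat.pow_pred_clog_lt_self one_lt_two h1
    have h3 : 0 < Nat.clog 2 n := Nat.clog_pos one_lt_two h1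
    have h4 : 2 ^ cl n = 2 * 2 ^ (Nat.clog 2 n).pred := by
      have h5 : (Nat.clog 2 n).pred + 1 = Nat.clog 2 n := Nat.succ_pred_eq_of_pos h3
      unfold cl
      rw [← pow_succ', h5]
    omega
  · have : n = 1 := by omega
    subst this
    simp [cl]

/-- frequencies of size between `2^j / 4` and `2^j` -/
noncomputable def TT (j : ℕ) : Finset K3 := (box (2 ^ j)).filter fun m => 2 ^ j < 4 * N m

theorem mem_TT {j : ℕ} {m : K3} : m ∈ TT j ↔ N m ≤ 2 ^ j ∧ 2 ^ j < 4 * N m := by
  unfold TT
  rw [Finset.mem_filter, mem_box]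

noncomputable def BB (w : K3 → ℝ) (j : ℕ) : ℝ := ∑ m ∈ TT j, w m ^ 2

theorem BB_nonneg (w : K3 → ℝ) (j : ℕ) : 0 ≤ BB w j := Finset.sum_nonneg fun _ _ => sq_nonneg _

/-- sums over pairs -/
noncomputable def PP (j : ℕ) (f g : K3 → ℝ) (l : K3) : ℝ :=
  ∑ k ∈ TT j, if -l - k ∈ TT j then f k * g (-l - k) else 0

theorem PP_le (j : ℕ) (f g : K3 → ℝ) (l : K3) :
    PP j f g l ≤ Real.sqrt (BB f j) * Real.sqrt (BB g j) := by
  unfold PP
  rw [← Finset.sum_filter]
  refine (Real.sum_mul_le_sqrt_mul_sqrt _ _ _).trans ?_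
  refine mul_le_mul (Real.sqrt_le_sqrt ?_) (Real.sqrt_le_sqrt ?_) (Real.sqrt_nonneg _)
    (Real.sqrt_nonneg _)
  · exact Finset.sum_le_sum_of_subset_of_nonneg (Finset.filter_subset _ _) fun _ _ _ => sq_nonneg _
  · have hinj : Set.InjOn (fun k : K3 => -l - k) ((TT j).filter fun k => -l - k ∈ TT j) := by
      intro a _ b _ hab
      simpa using hab
    rw [← Finset.sum_image (f := fun m => g m ^ 2) hinj]
    refine Finset.sum_le_sum_of_subset_of_nonneg (fun m hm => ?_) fun _ _ _ => sq_nonneg _
    obtain ⟨k, hk, rfl⟩ := Finset.mem_image.1 hm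
    exact (Finset.mem_filter.1 hk).2

section

variable {w : K3 → ℝ} {e : ℕ → K3 → ℝ} {κ : ℕ → ℕ}

/-- restriction to the frequencies above `κ j` -/
noncomputable def up (κ : ℕ → ℕ) (e : ℕ → K3 → ℝ) (j : ℕ) (k : K3) : ℝ :=
  if κ j < N k then e j k else 0

/-- the bound at the scale `j` -/
noncomputable def UU (κ : ℕ → ℕ) (e : ℕ → K3 → ℝ) (w : K3 → ℝ) (j : ℕ) : ℝ :=
  ∑ l ∈ box (2 ^ j), 2 ^ j * (N l * (if N l ≤ κ j then w l * PP j w w l
    else e j l * PP j w w l + w l * PP j (up κ e j) w l + w l * PP j w (up κ e j) l))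

theorem shell_term (hw : ∀ k, 0 ≤ w k) (he : ∀ j k, 0 ≤ e j k) (j : ℕ) (l k : K3)
    (hk : cl (N k) = j) :
    cg κ e w (l, k) ≤ if k ∈ TT j ∧ l ∈ box (2 ^ j) then ENNReal.ofReal
      (2 ^ j * (N l * (if N l ≤ κ j then w l * (if -l - k ∈ TT j then w k * w (-l - k) else 0)
      else e j l * (if -l - k ∈ TT j then w k * w (-l - k) else 0)
        + w l * (if -l - k ∈ TT j then up κ e j k * w (-l - k) else 0)
        + w l * (if -l - k ∈ TT j then w k * up κ e j (-l - k) else 0)))) else 0 := by
  by_cases hc : Can (l, k)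
  · by_cases hk0 : N k = 0
    · rw [cg_of hc]
      show ENNReal.ofReal ((N l : ℝ) * N k * _) ≤ _
      rw [hk0]
      simp
    obtain ⟨h1, h2⟩ := hc
    simp only at h1 h2
    have hle := le_two_pow_cl (N k)
    have hlt := two_pow_cl_lt hk0
    rw [hk] at hle hlt
    by_cases hl0 : N l = 0
    · rw [cg_of (show Can (l, k) from ⟨h1, h2⟩)]
      show ENNReal.ofReal ((N l : ℝ) * N k * _) ≤ _
      rw [hl0]
      simp
    have hkT : k ∈ TT j := mem_TT.2 ⟨hle, hlt⟩
    have hlb : l ∈ box (2 ^ j) := mem_box.2 (by omega)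
    have hr : -l - k ∈ TT j := by
      rw [mem_TT]
      refine ⟨by omega, ?_⟩
      have h3 : N k ≤ N (-l - k) + N l := by
        have := N_le_sub k (-l)
        rw [N_neg] at this
        have e : N (k - -l) = N (-l - k) := by rw [N_sub_comm]
        omega
      have h5 : 2 ^ j < 2 * N k := by
        rcases Nat.lt_or_ge 1 (N k) with h6 | h6
        · have h7 := Nat.pow_pred_clog_lt_self one_lt_two h6
          have h8 : 0 < Nat.clog 2 (N k) := Nat.clog_pos one_lt_two h6
          have h9 : 2 ^ cl (N k) = 2 * 2 ^ (Nat.clog 2 (N k)).pred := by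
            have h10 : (Nat.clog 2 (N k)).pred + 1 = Nat.clog 2 (N k) :=
              Nat.succ_pred_eq_of_pos h8
            unfold cl
            rw [← pow_succ', h10]
          rw [hk] at h9
          omega
        · have h7 : N k = 1 := by omega
          have h8 : j = 0 := by rw [← hk, h7]; simp [cl]
          subst h8
          omega
      omega
    rw [if_pos ⟨hkT, hlb⟩, cg_of (show Can (l, k) from ⟨h1, h2⟩)]
    apply ENNReal.ofReal_le_ofReal
    have hmx : mx (l, k) = N k := by unfold mx; simp only; omega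
    have hmn : mn (l, k) = N l := by unfold mn; simp only; omega
    have a1 := hw l
    have a2 := hw k
    have a3 := hw (-l - k)
    have b1 := he j l
    have b2 := he j k
    have b3 := he j (-l - k)
    have hNk : (N k : ℝ) ≤ 2 ^ j := by exact_mod_cast hle
    have hNl : (0 : ℝ) ≤ N l := Nat.cast_nonneg _
    simp only [if_pos hr]
    show (N l : ℝ) * N k * GG κ e w (l, k) ≤ _
    by_cases hκ : N l ≤ κ j
    · have hL : ¬ Loc κ (l, k) := by
        unfold Loc
        rw [hmx, hmn, hk]
        omega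
      rw [if_pos hκ]
      unfold GG
      rw [if_neg hL]
      show (N l : ℝ) * N k * (w l * w k * w (-l - k)) ≤ _
      calc (N l : ℝ) * N k * (w l * w k * w (-l - k))
          ≤ (N l : ℝ) * 2 ^ j * (w l * w k * w (-l - k)) := by gcongr
        _ = _ := by ring
    · have hL : Loc κ (l, k) := by
        unfold Loc
        rw [hmx, hmn, hk]
        omega
      rw [if_neg hκ]
      have u1 : up κ e j k = e j k := by
        unfold up
        rw [if_pos (by omega)]
      have u2 : up κ e j (-l - k) = e j (-l - k) := by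
        unfold up
        rw [if_pos (by omega)]
      rw [u1, u2]
      unfold GG
      rw [if_pos hL, hmx, hk]
      show (N l : ℝ) * N k * (e j l * w k * w (-l - k) + w l * e j k * w (-l - k)
        + w l * w k * e j (-l - k)) ≤ _
      calc (N l : ℝ) * N k * (e j l * w k * w (-l - k) + w l * e j k * w (-l - k)
        + w l * w k * e j (-l - k))
          ≤ (N l : ℝ) * 2 ^ j * (e j l * w k * w (-l - k) + w l * e j k * w (-l - k)
        + w l * w k * e j (-l - k)) := by gcongr
        _ = _ := by ring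
  · unfold cg
    rw [if_neg hc]
    exact zero_le

theorem UU_inner_nonneg (hw : ∀ k, 0 ≤ w k) (he : ∀ j k, 0 ≤ e j k) (j : ℕ) (l k : K3) :
    0 ≤ (2 : ℝ) ^ j * (N l * (if N l ≤ κ j then w l * (if -l - k ∈ TT j then w k * w (-l - k) else 0)
      else e j l * (if -l - k ∈ TT j then w k * w (-l - k) else 0)
        + w l * (if -l - k ∈ TT j then up κ e j k * w (-l - k) else 0)
        + w l * (if -l - k ∈ TT j then w k * up κ e j (-l - k) else 0))) := by
  have a1 := hw l
  have a2 := hw k
  have a3 := hw (-l - k)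
  have b1 := he j l
  have b2 : 0 ≤ up κ e j k := by unfold up; split_ifs; exacts [he j k, le_rfl]
  have b3 : 0 ≤ up κ e j (-l - k) := by unfold up; split_ifs; exacts [he j _, le_rfl]
  split_ifs <;> positivity

theorem tsum_cg_le (hw : ∀ k, 0 ≤ w k) (he : ∀ j k, 0 ≤ e j k) :
    ∑' z, cg κ e w z ≤ ∑' j, ENNReal.ofReal (UU κ e w j) := by
  classical
  have e1 : ∀ z : K3 × K3, cg κ e w z = ∑' j, if cl (N z.2) = j then cg κ e w z else 0 := by
    intro z
    rw [tsum_eq_single (cl (N z.2)) fun j hj => if_neg (Ne.symm hj), if_pos rfl]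
  calc ∑' z, cg κ e w z = ∑' z, ∑' j, (if cl (N z.2) = j then cg κ e w z else 0) := tsum_congr e1
    _ = ∑' j, ∑' z : K3 × K3, (if cl (N z.2) = j then cg κ e w z else 0) := ENNReal.tsum_comm
    _ ≤ ∑' j, ENNReal.ofReal (UU κ e w j) := by
        refine ENNReal.tsum_le_tsum fun j => ?_
        set f : K3 → K3 → ℝ := fun l k => (2 : ℝ) ^ j * (N l *
          (if N l ≤ κ j then w l * (if -l - k ∈ TT j then w k * w (-l - k) else 0)
          else e j l * (if -l - k ∈ TT j then w k * w (-l - k) else 0)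
          + w l * (if -l - k ∈ TT j then up κ e j k * w (-l - k) else 0)
          + w l * (if -l - k ∈ TT j then w k * up κ e j (-l - k) else 0))) with hf
        have hf0 : ∀ l k, 0 ≤ f l k := fun l k => UU_inner_nonneg hw he j l k
        calc ∑' z : K3 × K3, (if cl (N z.2) = j then cg κ e w z else 0)
            ≤ ∑' z : K3 × K3, (if z.1 ∈ box (2 ^ j) then
              (if z.2 ∈ TT j then ENNReal.ofReal (f z.1 z.2) else 0) else 0) := by
              refine ENNReal.tsum_le_tsum fun z => ?_
              by_cases h : cl (N z.2) = j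
              · rw [if_pos h]
                refine (shell_term hw he j z.1 z.2 h).trans ?_
                by_cases h1 : z.2 ∈ TT j ∧ z.1 ∈ box (2 ^ j)
                · rw [if_pos h1, if_pos h1.2, if_pos h1.1]
                · rw [if_neg h1]
                  exact zero_le
              · rw [if_neg h]
                exact zero_le
          _ = ∑' l, ∑' k, (if l ∈ box (2 ^ j) then
              (if k ∈ TT j then ENNReal.ofReal (f l k) else 0) else 0) :=
              ENNReal.tsum_prod (f := fun l k => if l ∈ box (2 ^ j) then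
                (if k ∈ TT j then ENNReal.ofReal (f l k) else 0) else 0)
          _ = ∑ l ∈ box (2 ^ j), ∑ k ∈ TT j, ENNReal.ofReal (f l k) := by
              rw [tsum_eq_sum (s := box (2 ^ j))]
              · refine Finset.sum_congr rfl fun l hl => ?_
                rw [tsum_eq_sum (s := TT j)]
                · refine Finset.sum_congr rfl fun k hk => ?_
                  rw [if_pos hl, if_pos hk]
                · intro k hk
                  rw [if_pos hl, if_neg hk]
              · intro l hl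
                simp only [if_neg hl, tsum_zero]
          _ = ENNReal.ofReal (∑ l ∈ box (2 ^ j), ∑ k ∈ TT j, f l k) := by
              rw [ENNReal.ofReal_sum_of_nonneg fun l _ => Finset.sum_nonneg fun k _ => hf0 l k]
              refine Finset.sum_congr rfl fun l _ => ?_
              rw [ENNReal.ofReal_sum_of_nonneg fun k _ => hf0 l k]
          _ = ENNReal.ofReal (UU κ e w j) := by
              congr 1
              unfold UU
              refine Finset.sum_congr rfl fun l _ => ?_
              unfold PP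
              rw [hf]
              simp only
              rw [← Finset.mul_sum, ← Finset.mul_sum]
              congr 2
              split_ifs
              · rw [Finset.mul_sum]
              · rw [Finset.sum_add_distrib, Finset.sum_add_distrib, Finset.mul_sum,
                  Finset.mul_sum, Finset.mul_sum]

/-- The bound at the scale `j`. -/
theorem UU_le (hw : ∀ k, 0 ≤ w k) (he : ∀ j k, 0 ≤ e j k) {s β : ℝ} (hs0 : 0 ≤ s) (hs : s < 5 / 2)
    (hβ0 : 0 ≤ β) (j : ℕ)
    (hβ : ∑ l ∈ box (2 ^ j) \ box (κ j), (N l : ℝ) ^ (2 * s) * e j l ^ 2 ≤ β ^ 2) :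
    UU κ e w j ≤ 2 ^ j * (Sn w (κ j) * BB w j + As s * (2 ^ j : ℝ) ^ (5 / 2 - s) * β * BB w j
      + 2 * (Sn w (2 ^ j) * ((4 : ℝ) ^ s * β * (2 ^ j : ℝ) ^ (-s) * Real.sqrt (BB w j)))) := by
  have hB := BB_nonneg w j
  have h2j : (0 : ℝ) < 2 ^ j := by positivity
  set Ej : ℝ := (4 : ℝ) ^ s * β * (2 ^ j : ℝ) ^ (-s) with hEj
  have hEj0 : 0 ≤ Ej := by positivity
  -- the norm of the helical part at the top of the window
  have hE : Real.sqrt (BB (up κ e j) j) ≤ Ej := by
    refine Real.sqrt_le_iff.2 ⟨hEj0, ?_⟩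
    have h1 : ∀ m ∈ TT j, up κ e j m ^ 2 ≤ ((2 ^ j : ℝ) / 4) ^ (-(2 * s)) *
        (if κ j < N m then (N m : ℝ) ^ (2 * s) * e j m ^ 2 else 0) := by
      intro m hm
      rw [mem_TT] at hm
      unfold up
      split_ifs with h
      · have h3 : (2 ^ j : ℝ) / 4 ≤ N m := by
          rw [div_le_iff₀ (by norm_num)]
          have : ((2 ^ j : ℕ) : ℝ) ≤ ((4 * N m : ℕ) : ℝ) := by exact_mod_cast hm.2.le
          push_cast at this
          linarith
        have h4 : (1 : ℝ) ≤ ((2 ^ j : ℝ) / 4) ^ (-(2 * s)) * (N m : ℝ) ^ (2 * s) := by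
          rw [Real.rpow_neg (by positivity), ← div_eq_inv_mul, one_le_div (by positivity)]
          gcongr
        calc e j m ^ 2 = 1 * e j m ^ 2 := (one_mul _).symm
          _ ≤ (((2 ^ j : ℝ) / 4) ^ (-(2 * s)) * (N m : ℝ) ^ (2 * s)) * e j m ^ 2 := by gcongr
          _ = _ := by ring
      · simp
    calc BB (up κ e j) j ≤ ∑ m ∈ TT j, ((2 ^ j : ℝ) / 4) ^ (-(2 * s)) *
        (if κ j < N m then (N m : ℝ) ^ (2 * s) * e j m ^ 2 else 0) := Finset.sum_le_sum h1
      _ = ((2 ^ j : ℝ) / 4) ^ (-(2 * s)) * ∑ m ∈ (TT j).filter (fun m => κ j < N m),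
          (N m : ℝ) ^ (2 * s) * e j m ^ 2 := by
          rw [← Finset.mul_sum, Finset.sum_filter]
      _ ≤ ((2 ^ j : ℝ) / 4) ^ (-(2 * s)) * β ^ 2 := by
          gcongr
          refine le_trans ?_ hβ
          refine Finset.sum_le_sum_of_subset_of_nonneg (fun m hm => ?_) fun _ _ _ => by positivity
          rw [Finset.mem_filter, mem_TT] at hm
          rw [Finset.mem_sdiff, mem_box, mem_box, not_le]
          exact ⟨hm.1.1, hm.2⟩
      _ = Ej ^ 2 := by
          rw [hEj, mul_pow, mul_pow, ← Real.rpow_natCast ((4 : ℝ) ^ s), ← Real.rpow_mul (by norm_num),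
            ← Real.rpow_natCast ((2 ^ j : ℝ) ^ (-s)), ← Real.rpow_mul (by positivity),
            Real.div_rpow (by positivity) (by norm_num)]
          have e1 : (4 : ℝ) ^ (-(2 * s)) = ((4 : ℝ) ^ (s * ((2 : ℕ) : ℝ)))⁻¹ := by
            rw [← Real.rpow_neg (by norm_num)]
            congr 1
            push_cast
            ring
          have e2 : -s * ((2 : ℕ) : ℝ) = -(2 * s) := by push_cast; ring
          rw [e1, e2]
          field_simp
  have p1 : ∀ l, PP j w w l ≤ BB w j := fun l => by
    refine (PP_le j w w l).trans (le_of_eq ?_)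
    exact Real.mul_self_sqrt hB
  have p2 : ∀ l, PP j (up κ e j) w l ≤ Ej * Real.sqrt (BB w j) := fun l =>
    (PP_le j _ w l).trans (mul_le_mul_of_nonneg_right hE (Real.sqrt_nonneg _))
  have p3 : ∀ l, PP j w (up κ e j) l ≤ Ej * Real.sqrt (BB w j) := fun l => by
    refine (PP_le j w _ l).trans ?_
    rw [mul_comm]
    exact mul_le_mul_of_nonneg_right hE (Real.sqrt_nonneg _)
  have hA := As_nonneg s
  -- the three sums
  have hterm : ∀ l ∈ box (2 ^ j), (2 : ℝ) ^ j * (N l * (if N l ≤ κ j then w l * PP j w w l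
      else e j l * PP j w w l + w l * PP j (up κ e j) w l + w l * PP j w (up κ e j) l))
      ≤ 2 ^ j * ((if N l ≤ κ j then N l * w l else 0) * BB w j
        + (if N l ≤ κ j then 0 else N l * e j l) * BB w j
        + 2 * (N l * w l * (Ej * Real.sqrt (BB w j)))) := by
    intro l _
    have a1 := hw l
    have b1 := he j l
    have hN : (0 : ℝ) ≤ N l := Nat.cast_nonneg _
    have hS := Real.sqrt_nonneg (BB w j)
    split_ifs with h
    · calc (2 : ℝ) ^ j * (N l * (w l * PP j w w l)) ≤ 2 ^ j * (N l * (w l * BB w j)) := by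
            gcongr
            exact p1 l
        _ = 2 ^ j * (N l * w l * BB w j + 0 * BB w j + 0) := by ring
        _ ≤ _ := by
            gcongr
            positivity
    · calc (2 : ℝ) ^ j * (N l * (e j l * PP j w w l + w l * PP j (up κ e j) w l
            + w l * PP j w (up κ e j) l))
          ≤ 2 ^ j * (N l * (e j l * BB w j + w l * (Ej * Real.sqrt (BB w j))
            + w l * (Ej * Real.sqrt (BB w j)))) := by
            gcongr
            · exact p1 l
            · exact p2 l
            · exact p3 l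
        _ = _ := by ring
  unfold UU
  refine (Finset.sum_le_sum hterm).trans ?_
  rw [← Finset.mul_sum, Finset.sum_add_distrib, Finset.sum_add_distrib, ← Finset.sum_mul,
    ← Finset.sum_mul, ← Finset.mul_sum, ← Finset.sum_mul]
  have s1 : ∑ l ∈ box (2 ^ j), (if N l ≤ κ j then (N l : ℝ) * w l else 0) ≤ Sn w (κ j) := by
    rw [← Finset.sum_filter]
    unfold Sn
    refine Finset.sum_le_sum_of_subset_of_nonneg (fun l hl => ?_) fun l _ _ =>
      mul_nonneg (Nat.cast_nonneg _) (hw l)
    exact mem_box.2 (Finset.mem_filter.1 hl).2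
  have s2 : ∑ l ∈ box (2 ^ j), (if N l ≤ κ j then 0 else (N l : ℝ) * e j l)
      ≤ As s * (2 ^ j : ℝ) ^ (5 / 2 - s) * β := by
    have h1 : ∑ l ∈ box (2 ^ j), (if N l ≤ κ j then 0 else (N l : ℝ) * e j l)
        = ∑ l ∈ box (2 ^ j) \ box (κ j), (N l : ℝ) * e j l := by
      have e1 : box (2 ^ j) \ box (κ j) = (box (2 ^ j)).filter fun l => ¬ N l ≤ κ j := by
        ext l
        rw [Finset.mem_sdiff, Finset.mem_filter, mem_box, mem_box]
      rw [e1, Finset.sum_filter]
      refine Finset.sum_congr rfl fun l _ => ?_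
      split_ifs <;> rfl
    rw [h1]
    have h2 := cs_sum (w := e j) (F := box (2 ^ j) \ box (κ j)) (R := 2 ^ j) Finset.sdiff_subset
      (fun h => by
        rw [Finset.mem_sdiff, mem_box, mem_box, N_eq_zero.2 rfl] at h
        exact h.2 (Nat.zero_le _)) hs hβ hβ0
    push_cast at h2
    exact h2
  have s3 : ∑ l ∈ box (2 ^ j), (N l : ℝ) * w l = Sn w (2 ^ j) := rfl
  rw [s3]
  gcongr

end

end Pool.Agent.Q63.Hel
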