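import Pool.Agent.Q63.Hel.Sum
import Pool.Agent.Q63.Win.Barrier

/-!
Evolution of the norm with the weight `|k|`.
-/

open MeasureTheory Set Filter Topology
open scoped ENNReal

namespace Pool.Agent.Q63.Hel

open H459R3.NS Pool.Agent.Q63.Win

/-- A differential inequality with an integrable coefficient. -/
theorem log_gronwall {X D G : ℝ → ℝ} {a t Γ : ℝ} (hat : a ≤ t) (hX : ∀ τ ∈ Icc a t, 0 ≤ X τ)
    (hd : ∀ τ ∈ Icc a t, HasDerivAt X (D τ) τ) (hG : IntegrableOn G (Icc a t))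
    (hD : ∀ τ ∈ Icc a t, D τ ≤ G τ * X τ) (hG0 : ∀ τ, 0 ≤ G τ) (hΓ : ∫ τ in a..t, G τ ≤ Γ) :
    X t ≤ (X a + 1) * Real.exp Γ := by
  have hpos : ∀ τ ∈ Icc a t, 0 < X τ + 1 := fun τ hτ => by linarith [hX τ hτ]
  have hL : ∀ τ ∈ Icc a t, HasDerivAt (fun τ => Real.log (X τ + 1)) (D τ / (X τ + 1)) τ :=
    fun τ hτ => ((hd τ hτ).add_const 1).log (hpos τ hτ).ne'
  have key := intervalIntegral.sub_le_integral_of_hasDeriv_right_of_le (φ := G) hat
    (fun τ hτ => (hL τ hτ).continuousAt.continuousWithinAt)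
    (fun τ hτ => (hL τ ⟨hτ.1.le, hτ.2.le⟩).hasDerivWithinAt) hG
    (fun τ hτ => by
      have h1 := hD τ ⟨hτ.1.le, hτ.2.le⟩
      have h2 := hpos τ ⟨hτ.1.le, hτ.2.le⟩
      have h3 := hG0 τ
      rw [div_le_iff₀ h2]
      nlinarith)
  have h1 : Real.log (X t + 1) ≤ Real.log (X a + 1) + Γ := by linarith
  have ht := hpos t (right_mem_Icc.2 hat)
  have ha := hpos a (left_mem_Icc.2 hat)
  have h2 : X t + 1 ≤ (X a + 1) * Real.exp Γ := by
    rw [← Real.exp_log ht, ← Real.exp_log ha, ← Real.exp_add]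
    exact Real.exp_le_exp.2 h1
  linarith

section

variable {m : K3 → ℝ} {T ν : ℝ} {c : ℝ → Fam}

theorem len_ge (k : K3) : (N k : ℝ) ≤ len k := Real.le_sqrt_of_sq_le (N_sq_le k)

theorem pol_N (n : ℕ) : Pol fun k => (N k : ℝ) ^ n := pol_pow n

theorem XX_cont (h : FSol m T c) (hm : Pol m) {φ : K3 → ℝ} (hφ : Pol φ) :
    ContinuousOn (fun t => XX φ (amp (c t))) (Ioo 0 T) := fun t ht =>
  (h.hasDerivAt_XX hm hφ ht).continuousAt.continuousWithinAt

theorem XX_mono {φ ψ w : K3 → ℝ} (hφ : Pol φ) (hψ : Pol ψ) (h : RapR w) (hle : ∀ k, φ k ≤ ψ k) :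
    XX φ w ≤ XX ψ w := by
  unfold XX
  refine (XX_summable hφ h).tsum_le_tsum (fun k => ?_) (XX_summable hψ h)
  have := hle k
  gcongr

theorem hel_high (h : FSol m T c) (hm : Pol m) (hν : 0 < ν)
    (hmν : ∀ k, 36 * ν * (N k : ℝ) ^ 2 ≤ m k) {a : ℝ} (ha : 0 < a) {G : ℝ → ℝ}
    (hG0 : ∀ t, 0 ≤ G t) (hGi : IntegrableOn G (Ico a T))
    (hprod : ∀ t ∈ Ico a T, |2 * Win.prod len (c t)| ≤
      2 * ν * XX (fun k => (N k : ℝ) ^ 3) (amp (c t)) + G t * XX len (amp (c t))) :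
    ∃ C, ∀ t ∈ Ico a T, XX (fun k => (N k : ℝ) ^ 4) (amp (c t)) ≤ C := by
  rcases le_or_gt T a with hTa | haT
  · exact ⟨0, fun t ht => absurd (ht.1.trans_lt ht.2) (not_lt.2 hTa)⟩
  have hIoo : ∀ τ ∈ Ico a T, τ ∈ Ioo 0 T := fun τ hτ => ⟨ha.trans_le hτ.1, hτ.2⟩
  have hsub : ∀ t ∈ Ico a T, Icc a t ⊆ Ioo 0 T := fun t ht τ hτ =>
    ⟨ha.trans_le hτ.1, hτ.2.trans_lt ht.2⟩
  have hsub' : ∀ t ∈ Ico a T, Icc a t ⊆ Ico a T := fun t ht τ hτ => ⟨hτ.1, hτ.2.trans_lt ht.2⟩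
  set Γ := ∫ τ in Ico a T, G τ with hΓ
  have hΓ0 : 0 ≤ Γ := integral_nonneg fun τ => hG0 τ
  have hGt : ∀ t ∈ Ico a T, ∫ τ in a..t, G τ ≤ Γ := by
    intro t ht
    rw [intervalIntegral.integral_of_le ht.1]
    refine setIntegral_mono_set hGi (Filter.Eventually.of_forall fun τ => hG0 τ) ?_
    exact Filter.Eventually.of_forall fun τ hτ => hsub' t ht ⟨hτ.1.le, hτ.2⟩
  set X1 : ℝ → ℝ := fun t => XX len (amp (c t)) with hX1
  set X3 : ℝ → ℝ := fun t => XX (fun k => (N k : ℝ) ^ 3) (amp (c t)) with hX3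
  have hX10 : ∀ t, 0 ≤ X1 t := fun t => XX_nonneg fun k => len_nonneg k
  have hX30 : ∀ t, 0 ≤ X3 t := fun t => XX_nonneg fun k => by positivity
  have hd1 : ∀ t ∈ Ico a T, HasDerivAt X1
      (-(2 * XX (fun k => len k * m k) (amp (c t))) - 2 * Win.prod len (c t)) t := fun t ht =>
    h.hasDerivAt_XX hm pol_len (hIoo t ht)
  have hle1 : ∀ t ∈ Ico a T, -(2 * XX (fun k => len k * m k) (amp (c t)))
      - 2 * Win.prod len (c t) ≤ -(ν * X3 t) + G t * X1 t := by
    intro t ht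
    have hR := (h.rapV (hIoo t ht)).rapR
    have h1 := hprod t ht
    have h2 := (abs_le.1 h1).1
    have h3 : 36 * ν * X3 t ≤ XX (fun k => len k * m k) (amp (c t)) := by
      rw [hX3]
      simp only
      unfold XX
      rw [← tsum_mul_left]
      refine Summable.tsum_le_tsum (fun k => ?_) ((XX_summable (pol_pow 3) hR).mul_left _)
        (XX_summable (pol_mul pol_len hm) hR)
      have h5 := hmν k
      have h6 := len_ge k
      have hN : (0 : ℝ) ≤ N k := Nat.cast_nonneg _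
      have h8 := len_nonneg k
      have h7 : (N k : ℝ) * (36 * ν * (N k : ℝ) ^ 2) ≤ len k * m k := by gcongr
      calc 36 * ν * ((N k : ℝ) ^ 3 * amp (c t) k ^ 2)
          = (N k : ℝ) * (36 * ν * (N k : ℝ) ^ 2) * amp (c t) k ^ 2 := by ring
        _ ≤ len k * m k * amp (c t) k ^ 2 := by gcongr
    have h4 : 0 ≤ ν * X3 t := mul_nonneg hν.le (hX30 t)
    have h2' : -(2 * Win.prod len (c t)) ≤ 2 * ν * X3 t + G t * X1 t := by
      have : -(2 * ν * X3 t + G t * X1 t) ≤ 2 * Win.prod len (c t) := h2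
      linarith
    linarith
  -- the first bound
  set B := (X1 a + 1) * Real.exp Γ with hB
  have hB0 : 0 ≤ B := by
    have := hX10 a
    positivity
  have hbd1 : ∀ t ∈ Ico a T, X1 t ≤ B := by
    intro t ht
    refine log_gronwall (D := fun t => -(2 * XX (fun k => len k * m k) (amp (c t)))
      - 2 * Win.prod len (c t)) ht.1 (fun τ _ => hX10 τ)
      (fun τ hτ => hd1 τ ⟨hτ.1, hτ.2.trans_lt ht.2⟩) (hGi.mono_set (hsub' t ht)) ?_ hG0 (hGt t ht)
    intro τ hτ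
    have := hle1 τ ⟨hτ.1, hτ.2.trans_lt ht.2⟩
    have h4 : 0 ≤ ν * X3 τ := mul_nonneg hν.le (hX30 τ)
    linarith
  have hX3c : ContinuousOn X3 (Ioo 0 T) := XX_cont h hm (pol_pow 3)
  -- the second bound
  have hint3 : ∀ t ∈ Ico a T, ν * ∫ τ in a..t, X3 τ ≤ X1 a + B * Γ := by
    intro t ht
    have hi3 : IntegrableOn X3 (Icc a t) := (hX3c.mono (hsub t ht)).integrableOn_Icc
    have hiG : IntegrableOn G (Icc a t) := hGi.mono_set (hsub' t ht)
    have key := intervalIntegral.sub_le_integral_of_hasDeriv_right_of_le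
      (φ := fun τ => -(ν * X3 τ) + B * G τ) ht.1
      (fun τ hτ => (hd1 τ ⟨hτ.1, hτ.2.trans_lt ht.2⟩).continuousAt.continuousWithinAt)
      (fun τ hτ => (hd1 τ ⟨hτ.1.le, hτ.2.trans ht.2⟩).hasDerivWithinAt)
      ((hi3.const_mul ν).neg.add (hiG.const_mul B))
      (fun τ hτ => by
        have h1 := hle1 τ ⟨hτ.1.le, hτ.2.trans ht.2⟩
        have h2 := hbd1 τ ⟨hτ.1.le, hτ.2.trans ht.2⟩
        have h3 := hG0 τ
        have h4 : G τ * X1 τ ≤ G τ * B := by gcongr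
        linarith)
    have hI3 : IntervalIntegrable X3 volume a t := by
      rw [intervalIntegrable_iff_integrableOn_Icc_of_le ht.1]
      exact hi3
    have hIG : IntervalIntegrable G volume a t := by
      rw [intervalIntegrable_iff_integrableOn_Icc_of_le ht.1]
      exact hiG
    have e5 : ∫ τ in a..t, (-(ν * X3 τ) + B * G τ)
        = -(ν * ∫ τ in a..t, X3 τ) + B * ∫ τ in a..t, G τ := by
      have := intervalIntegral.integral_add (hI3.const_mul ν).neg (hIG.const_mul B)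
      simp only [Pi.neg_apply] at this
      rw [this, intervalIntegral.integral_neg, intervalIntegral.integral_const_mul,
        intervalIntegral.integral_const_mul]
    rw [e5] at key
    have h5 := hGt t ht
    have h6 : B * ∫ τ in a..t, G τ ≤ B * Γ := by gcongr
    have h7 := hX10 t
    linarith
  -- the third bound
  have hC := C1_nonneg 4
  have hAs := As_nonneg (3 / 2)
  set A := C1 4 * As (3 / 2) with hA
  have hA0 : 0 ≤ A := by positivity
  set X4 : ℝ → ℝ := fun t => XX (fun k => (N k : ℝ) ^ 4) (amp (c t)) with hX4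
  have hX40 : ∀ t, 0 ≤ X4 t := fun t => XX_nonneg fun k => by positivity
  have hd4 : ∀ t ∈ Ico a T, HasDerivAt X4 (-(2 * XX (fun k => (N k : ℝ) ^ 4 * m k) (amp (c t)))
      - 2 * Win.prod (fun k => (N k : ℝ) ^ 4) (c t)) t := fun t ht =>
    h.hasDerivAt_XX hm (pol_pow 4) (hIoo t ht)
  have hle4 : ∀ t ∈ Ico a T, -(2 * XX (fun k => (N k : ℝ) ^ 4 * m k) (amp (c t)))
      - 2 * Win.prod (fun k => (N k : ℝ) ^ 4) (c t) ≤ (A ^ 2 / ν * X3 t) * X4 t := by
    intro t ht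
    have hR := (h.rapV (hIoo t ht)).rapR
    have hw := amp_nonneg (c t)
    have hwt := wt_pow 4
    have hP := pol_pow 4
    refine (h.deriv_le hm hmν hwt hP (hIoo t ht)).trans ?_
    have s1 := XX_summable hP hR
    have s2 := XX_summable (pol_mul hP (pol_pow 2)) hR
    have s3 := QR_term_summable hwt.nonneg hP hR hw
    have hS : ∀ k, Sn (amp (c t)) (2 * N k) ≤ As (3 / 2) * (2 * N k) * Real.sqrt (X3 t) := by
      intro k
      have e0 : Sn (amp (c t)) (2 * N k) = ∑ l ∈ (box (2 * N k)).erase 0, (N l : ℝ) * amp (c t) l := by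
        unfold Sn
        rw [Finset.sum_erase]
        rw [N_eq_zero.2 rfl]
        simp
      have h5 := cs_sum (w := amp (c t)) (F := (box (2 * N k)).erase 0) (R := 2 * N k) (s := 3 / 2)
        (Bd := Real.sqrt (X3 t)) (Finset.erase_subset _ _) (Finset.notMem_erase _ _) (by norm_num)
        ?_ (Real.sqrt_nonneg _)
      · rw [← e0] at h5
        refine h5.trans (le_of_eq ?_)
        have e1 : (5 / 2 - 3 / 2 : ℝ) = 1 := by norm_num
        rw [e1, Real.rpow_one]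
        unfold As
        push_cast
        ring
      · rw [Real.sq_sqrt (hX30 t)]
        have h6 : ∀ l ∈ (box (2 * N k)).erase 0, (N l : ℝ) ^ (2 * (3 / 2 : ℝ)) * amp (c t) l ^ 2
            = (N l : ℝ) ^ 3 * amp (c t) l ^ 2 := by
          intro l _
          congr 1
          rw [show (2 * (3 / 2 : ℝ)) = ((3 : ℕ) : ℝ) by norm_num, Real.rpow_natCast]
        rw [Finset.sum_congr rfl h6]
        exact (XX_summable (pol_pow 3) hR).sum_le_tsum _ fun l _ => by positivity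
    have key : ∀ k, C1 4 * ((N k : ℝ) ^ 4 * amp (c t) k ^ 2 * Sn (amp (c t)) (2 * N k)) ≤
        ν * ((N k : ℝ) ^ 4 * (N k : ℝ) ^ 2 * amp (c t) k ^ 2)
          + (A ^ 2 / ν * X3 t) * ((N k : ℝ) ^ 4 * amp (c t) k ^ 2) := by
      intro k
      have h6 : C1 4 * Sn (amp (c t)) (2 * N k) ≤ ν * (N k : ℝ) ^ 2 + A ^ 2 / ν * X3 t := by
        have h7 := mul_le_mul_of_nonneg_left (hS k) hC
        refine h7.trans ?_
        have h8 : X3 t = Real.sqrt (X3 t) ^ 2 := (Real.sq_sqrt (hX30 t)).symm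
        set y := Real.sqrt (X3 t) with hy
        rw [h8]
        have h9 : C1 4 * (As (3 / 2) * (2 * (N k : ℝ)) * y) = 2 * (A * y * N k) := by
          rw [hA]; ring
        rw [h9]
        have h10 : ν * (N k : ℝ) ^ 2 + A ^ 2 / ν * y ^ 2 - 2 * (A * y * N k)
            = (ν * N k - A * y) ^ 2 / ν := by
          field_simp
          ring
        have h11 : 0 ≤ (ν * N k - A * y) ^ 2 / ν := by positivity
        linarith
      calc C1 4 * ((N k : ℝ) ^ 4 * amp (c t) k ^ 2 * Sn (amp (c t)) (2 * N k))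
          = (N k : ℝ) ^ 4 * amp (c t) k ^ 2 * (C1 4 * Sn (amp (c t)) (2 * N k)) := by ring
        _ ≤ (N k : ℝ) ^ 4 * amp (c t) k ^ 2 * (ν * (N k : ℝ) ^ 2 + A ^ 2 / ν * X3 t) := by gcongr
        _ = _ := by ring
    have hQ : C1 4 * QR (fun k => (N k : ℝ) ^ 4) (amp (c t)) ≤
        ν * XX (fun k => (N k : ℝ) ^ 4 * (N k : ℝ) ^ 2) (amp (c t)) + (A ^ 2 / ν * X3 t) * X4 t := by
      unfold QR
      rw [← tsum_mul_left]
      refine ((s3.mul_left _).tsum_le_tsum key ((s2.mul_left ν).add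
        (s1.mul_left (A ^ 2 / ν * X3 t)))).trans ?_
      rw [(s2.mul_left ν).tsum_add (s1.mul_left (A ^ 2 / ν * X3 t)), tsum_mul_left, tsum_mul_left]
      exact le_rfl
    have hY : 0 ≤ XX (fun k => (N k : ℝ) ^ 4 * (N k : ℝ) ^ 2) (amp (c t)) :=
      XX_nonneg fun k => by positivity
    nlinarith
  refine ⟨(X4 a + 1) * Real.exp (A ^ 2 / ν ^ 2 * (X1 a + B * Γ)), fun t ht => ?_⟩
  refine log_gronwall (G := fun τ => A ^ 2 / ν * X3 τ)
    (D := fun t => -(2 * XX (fun k => (N k : ℝ) ^ 4 * m k) (amp (c t)))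
      - 2 * Win.prod (fun k => (N k : ℝ) ^ 4) (c t)) ht.1 (fun τ _ => hX40 τ)
    (fun τ hτ => hd4 τ ⟨hτ.1, hτ.2.trans_lt ht.2⟩)
    (((hX3c.mono (hsub t ht)).integrableOn_Icc).const_mul _)
    (fun τ hτ => hle4 τ ⟨hτ.1, hτ.2.trans_lt ht.2⟩) (fun τ => ?_) ?_
  · have := hX30 τ
    positivity
  · rw [intervalIntegral.integral_const_mul]
    have h1 := hint3 t ht
    calc A ^ 2 / ν * ∫ τ in a..t, X3 τ = A ^ 2 / ν ^ 2 * (ν * ∫ τ in a..t, X3 τ) := by
          field_simp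
      _ ≤ A ^ 2 / ν ^ 2 * (X1 a + B * Γ) := by gcongr

end

end Pool.Agent.Q63.Hel
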