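import Pool.Agent.Q63.Hel.Alg
import Pool.Agent.Q63.Win.TriB

/-!
The production of the norm with the weight `|k|` as a sum over triads, and the conservation of
helicity for each triad.
-/

open Set Filter Topology
open scoped ENNReal

namespace Pool.Agent.Q63.Hel

open H459R3.NS Pool.Agent.Q63.Win

/-- trilinear expression of a triad `(p, q, r)`, `r = - p - q` -/
noncomputable def tt (a b d : Fam) (z : K3 × K3) : ℂ :=
  (∑ j, a z.1 j * (z.2 j : ℂ)) * ∑ i, b z.2 i * d (-z.1 - z.2) i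

theorem div_move {a : Fam} (ha : ∀ k, ∑ i, (k i : ℂ) * a k i = 0) (p q : K3) :
    ∑ j, a p j * ((-p - q) j : ℂ) = -∑ j, a p j * (q j : ℂ) := by
  have h := ha p
  have e : ∑ j, a p j * (((-p - q) j : ℤ) : ℂ) = -(∑ i, (p i : ℂ) * a p i)
      - ∑ j, a p j * (q j : ℂ) := by
    rw [← Finset.sum_neg_distrib, ← Finset.sum_sub_distrib]
    refine Finset.sum_congr rfl fun j _ => ?_
    simp only [Pi.sub_apply, Pi.neg_apply]
    push_cast
    ring
  rw [e, h]
  ring

theorem norm_tt_le' (a b d : Fam) (z : K3 × K3) :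
    ‖tt a b d z‖ ≤ 2 * N z.2 * (amp a z.1 * amp b z.2 * amp d (-z.1 - z.2)) := by
  unfold tt
  rw [norm_mul]
  have h1 := norm_div_le a z.1 z.2
  have h2 := norm_sum_mul_le (b z.2) (d (-z.1 - z.2))
  calc ‖∑ j, a z.1 j * (z.2 j : ℂ)‖ * ‖∑ i, b z.2 i * d (-z.1 - z.2) i‖
      ≤ (amp a z.1 * (2 * N z.2)) * (amp b z.2 * amp d (-z.1 - z.2)) := by
        refine mul_le_mul h1 h2 (norm_nonneg _) ?_
        have := amp_nonneg a z.1
        positivity
    _ = _ := by ring

theorem norm_tt_le {a : Fam} (ha : ∀ k, ∑ i, (k i : ℂ) * a k i = 0) (b d : Fam) (z : K3 × K3) :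
    ‖tt a b d z‖ ≤ 2 * min (N z.2 : ℝ) (N (-z.1 - z.2)) *
      (amp a z.1 * amp b z.2 * amp d (-z.1 - z.2)) := by
  rcases le_total (N z.2 : ℝ) (N (-z.1 - z.2)) with h | h
  · rw [min_eq_left h]
    exact norm_tt_le' a b d z
  · rw [min_eq_right h]
    unfold tt
    rw [norm_mul]
    have h1 := norm_div_le a z.1 (-z.1 - z.2)
    rw [div_move ha, norm_neg] at h1
    have h2 := norm_sum_mul_le (b z.2) (d (-z.1 - z.2))
    calc ‖∑ j, a z.1 j * (z.2 j : ℂ)‖ * ‖∑ i, b z.2 i * d (-z.1 - z.2) i‖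
        ≤ (amp a z.1 * (2 * N (-z.1 - z.2))) * (amp b z.2 * amp d (-z.1 - z.2)) := by
          refine mul_le_mul h1 h2 (norm_nonneg _) ?_
          have := amp_nonneg a z.1
          positivity
      _ = _ := by ring

/-! ### Summability -/

theorem len_le' (k : K3) : len k ≤ 2 * (1 + (N k : ℝ)) := by
  refine Real.sqrt_le_iff.2 ⟨by positivity, ?_⟩
  calc ∑ j, (k j : ℝ) ^ 2 ≤ ∑ _j : Fin 3, (N k : ℝ) ^ 2 := by
        refine Finset.sum_le_sum fun j _ => ?_
        have := abs_coord_le k j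
        rw [← sq_abs (k j : ℝ)]
        gcongr
    _ = 3 * (N k : ℝ) ^ 2 := by simp
    _ ≤ (2 * (1 + (N k : ℝ))) ^ 2 := by nlinarith [sq_nonneg (N k : ℝ), (Nat.cast_nonneg (N k) : (0 : ℝ) ≤ _)]

theorem one_add_N_sub (p q : K3) : 1 + (N (-p - q) : ℝ) ≤ (1 + (N p : ℝ)) * (1 + (N q : ℝ)) := by
  have h : N (-p - q) ≤ N p + N q := by
    have := N_sub_le (-p) q
    rwa [N_neg] at this
  have h1 : (N (-p - q) : ℝ) ≤ N p + N q := by exact_mod_cast h
  have h2 : (0 : ℝ) ≤ N p := Nat.cast_nonneg _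
  have h3 : (0 : ℝ) ≤ N q := Nat.cast_nonneg _
  nlinarith

/-- a general bound for summable families over triads -/
theorem summable_tri {u v w : K3 → ℝ} (hu : RapR u) (hv : RapR v) (hw : RapR w) (n : ℕ)
    {F : K3 × K3 → ℂ} (hF : ∀ z, ‖F z‖ ≤ 100 * ((1 + (N z.1 : ℝ)) * (1 + (N z.2 : ℝ)) *
      (1 + (N (-z.1 - z.2) : ℝ))) ^ n * (|u z.1| * |v z.2| * |w (-z.1 - z.2)|)) :
    Summable F := by
  obtain ⟨M, hM0, hM⟩ := hw.bdd
  have s1 := hu.summable (2 * n)
  have s2 := hv.summable (2 * n)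
  have s3 := (s1.mul_of_nonneg s2 (fun k => by positivity) (fun k => by positivity)).mul_left
    (100 * M)
  refine Summable.of_norm_bounded s3 fun z => (hF z).trans ?_
  have h1 := one_add_N_sub z.1 z.2
  have h2 := hM (-z.1 - z.2)
  calc 100 * ((1 + (N z.1 : ℝ)) * (1 + (N z.2 : ℝ)) *
        (1 + (N (-z.1 - z.2) : ℝ))) ^ n * (|u z.1| * |v z.2| * |w (-z.1 - z.2)|)
      ≤ 100 * ((1 + (N z.1 : ℝ)) * (1 + (N z.2 : ℝ)) *
        ((1 + (N z.1 : ℝ)) * (1 + (N z.2 : ℝ)))) ^ n * (|u z.1| * |v z.2| * M) := by gcongr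
    _ = 100 * M * ((1 + (N z.1 : ℝ)) ^ (2 * n) * |u z.1| * ((1 + (N z.2 : ℝ)) ^ (2 * n) * |v z.2|)) := by
        have e : ((1 + (N z.1 : ℝ)) * (1 + (N z.2 : ℝ)) *
          ((1 + (N z.1 : ℝ)) * (1 + (N z.2 : ℝ)))) ^ n
          = (1 + (N z.1 : ℝ)) ^ (2 * n) * (1 + (N z.2 : ℝ)) ^ (2 * n) := by
          rw [pow_mul, pow_mul, ← mul_pow]
          congr 1
          ring
        rw [e]
        ring

/-- invariance under permutations of the triad -/
structure Sy (P : K3 × K3 → Prop) : Prop where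
  swap : ∀ z, P (z.2, z.1) ↔ P z
  rot : ∀ z, P (z.1, -z.1 - z.2) ↔ P z

/-- `(p, q) ↦ (p, r)` -/
def e2 : K3 × K3 ≃ K3 × K3 where
  toFun z := (z.1, -z.1 - z.2)
  invFun z := (z.1, -z.1 - z.2)
  left_inv z := by simp
  right_inv z := by simp

/-- `(p, q) ↦ (r, q)` -/
def e3 : K3 × K3 ≃ K3 × K3 where
  toFun z := (-z.1 - z.2, z.2)
  invFun z := (-z.1 - z.2, z.2)
  left_inv z := by simp
  right_inv z := by simp

theorem Sy.rot' {P : K3 × K3 → Prop} (h : Sy P) (z : K3 × K3) : P (-z.1 - z.2, z.2) ↔ P z := by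
  rw [← h.swap (-z.1 - z.2, z.2), ← h.swap z, ← h.rot (z.2, z.1)]
  simp only
  rw [show -z.2 - z.1 = -z.1 - z.2 by abel]

section

open scoped Classical in
/-- symmetric sums of the trilinear form -/
noncomputable def lt (P : K3 × K3 → Prop) (h : Fam) (z : K3 × K3) : ℂ :=
  if P z then (len (-z.1 - z.2) : ℂ) * tt h h h z else 0

open scoped Classical in
noncomputable def ct (P : K3 × K3 → Prop) (h : Fam) (z : K3 × K3) : ℂ :=
  if P z then ((len (-z.1 - z.2) : ℂ) - len z.2) * tt h h h z else 0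

theorem lt_summable (P : K3 × K3 → Prop) {h : Fam} (hr : RapV h) : Summable (lt P h) := by
  refine summable_tri hr.rapR hr.rapR hr.rapR 1 fun z => ?_
  unfold lt
  have a1 := amp_nonneg h z.1
  have a2 := amp_nonneg h z.2
  have a3 := amp_nonneg h (-z.1 - z.2)
  have hN : (0 : ℝ) ≤ N z.1 := Nat.cast_nonneg _
  split_ifs
  · rw [norm_mul, Complex.norm_real, Real.norm_eq_abs, abs_of_nonneg (len_nonneg _), pow_one,
      abs_of_nonneg a1, abs_of_nonneg a2, abs_of_nonneg a3]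
    have h1 := len_le' (-z.1 - z.2)
    have h2 := norm_tt_le' h h h z
    calc len (-z.1 - z.2) * ‖tt h h h z‖
        ≤ (2 * (1 + (N (-z.1 - z.2) : ℝ))) *
          (2 * N z.2 * (amp h z.1 * amp h z.2 * amp h (-z.1 - z.2))) := by gcongr
      _ ≤ (2 * (1 + (N (-z.1 - z.2) : ℝ))) *
          (2 * (1 + N z.2) * (amp h z.1 * amp h z.2 * amp h (-z.1 - z.2))) := by
          gcongr
          linarith
      _ = 4 * (1 * (1 + (N z.2 : ℝ)) * (1 + (N (-z.1 - z.2) : ℝ))) *
          (amp h z.1 * amp h z.2 * amp h (-z.1 - z.2)) := by ring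
      _ ≤ 100 * ((1 + (N z.1 : ℝ)) * (1 + (N z.2 : ℝ)) * (1 + (N (-z.1 - z.2) : ℝ))) *
          (amp h z.1 * amp h z.2 * amp h (-z.1 - z.2)) := by
          gcongr
          · norm_num
          · linarith
  · rw [norm_zero]
    positivity

theorem tt_e2 {h : Fam} (hd : ∀ k, ∑ i, (k i : ℂ) * h k i = 0) (z : K3 × K3) :
    tt h h h (e2 z) = -tt h h h z := by
  unfold tt e2
  simp only [Equiv.coe_fn_mk]
  rw [div_move hd]
  have e : -z.1 - (-z.1 - z.2) = z.2 := by abel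
  rw [e]
  have e' : ∑ i, h (-z.1 - z.2) i * h z.2 i = ∑ i, h z.2 i * h (-z.1 - z.2) i :=
    Finset.sum_congr rfl fun i _ => mul_comm _ _
  rw [e']
  ring

/-- the commutator form -/
theorem lt_ct {P : K3 × K3 → Prop} (hP : Sy P) {h : Fam} (hr : RapV h)
    (hd : ∀ k, ∑ i, (k i : ℂ) * h k i = 0) :
    Summable (ct P h) ∧ 2 * ∑' z, lt P h z = ∑' z, ct P h z := by
  have s1 := lt_summable P hr
  have s2 : Summable fun z => lt P h (e2 z) := e2.summable_iff.2 s1
  have e : ∀ z, lt P h z + lt P h (e2 z) = ct P h z := by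
    intro z
    unfold lt ct
    have hz : P (e2 z) ↔ P z := hP.rot z
    have e' : -(e2 z).1 - (e2 z).2 = z.2 := by
      show -z.1 - (-z.1 - z.2) = z.2
      abel
    by_cases h0 : P z
    · have h1 := hz.2 h0
      rw [if_pos h0, if_pos h1, if_pos h0, tt_e2 hd, e']
      ring
    · have h1 : ¬ P (e2 z) := fun h => h0 (hz.1 h)
      rw [if_neg h0, if_neg h1, if_neg h0, add_zero]
  refine ⟨(s1.add s2).congr e, ?_⟩
  rw [two_mul]
  nth_rewrite 2 [← e2.tsum_eq]
  rw [← s1.tsum_add s2]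
  exact tsum_congr e

/-- the triple product -/
noncomputable def bt (h : Fam) (z : K3 × K3) : ℂ :=
  (∑ j, (z.1 j : ℂ) * h z.2 j) * (∑ i, h z.1 i * cr (-z.1 - z.2) (h (-z.1 - z.2)) i)
    - (∑ i, h z.1 i * h z.2 i) * ∑ i, (z.1 i : ℂ) * cr (-z.1 - z.2) (h (-z.1 - z.2)) i

noncomputable def at' (h : Fam) (z : K3 × K3) : ℂ :=
  (∑ j, h z.1 j * (z.2 j : ℂ)) * ∑ i, h z.2 i * cr (-z.1 - z.2) (h (-z.1 - z.2)) i

theorem at_add (h : Fam) (z : K3 × K3) : at' h z + at' h (z.2, z.1) = bt h z + bt h (z.2, z.1) := by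
  unfold at' bt
  simp only
  rw [show -z.2 - z.1 = -z.1 - z.2 by abel]
  generalize h (-z.1 - z.2) = c
  simp only [Fin.sum_univ_three, cr_zero', cr_one', cr_two', Pi.sub_apply, Pi.neg_apply]
  push_cast
  ring

theorem bt_anti (h : Fam) (z : K3 × K3) : bt h (e3 z) = -bt h z := by
  unfold bt e3
  simp only [Equiv.coe_fn_mk]
  rw [show -(-z.1 - z.2) - z.2 = z.1 by abel]
  generalize h (-z.1 - z.2) = c
  simp only [Fin.sum_univ_three, cr_zero', cr_one', cr_two', Pi.sub_apply, Pi.neg_apply]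
  push_cast
  ring

theorem sum_cr_le (h : Fam) (k : K3) :
    Real.sqrt (∑ i, ‖cr k (h k) i‖ ^ 2) ≤ 2 * (1 + (N k : ℝ)) * amp h k := by
  have h1 := len_le' k
  have h2 := len_nonneg k
  have h3 := amp_nonneg h k
  refine (Real.sqrt_le_sqrt (sq_cr_le k (h k))).trans ?_
  rw [Real.sqrt_mul (sq_nonneg _), Real.sqrt_sq h2]
  show len k * amp h k ≤ _
  gcongr

open scoped Classical in
theorem at_summable (P : K3 × K3 → Prop) {h : Fam} (hr : RapV h) :
    Summable fun z => if P z then at' h z else 0 := by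
  refine summable_tri hr.rapR hr.rapR hr.rapR 1 fun z => ?_
  have a1 := amp_nonneg h z.1
  have a2 := amp_nonneg h z.2
  have a3 := amp_nonneg h (-z.1 - z.2)
  have hN : (0 : ℝ) ≤ N z.1 := Nat.cast_nonneg _
  split_ifs
  · unfold at'
    rw [norm_mul, pow_one, abs_of_nonneg a1, abs_of_nonneg a2, abs_of_nonneg a3]
    have h1 := norm_div_le h z.1 z.2
    have h2 := norm_sum_mul_le (h z.2) (cr (-z.1 - z.2) (h (-z.1 - z.2)))
    have h3 := sum_cr_le h (-z.1 - z.2)
    calc ‖∑ j, h z.1 j * (z.2 j : ℂ)‖ * ‖∑ i, h z.2 i * cr (-z.1 - z.2) (h (-z.1 - z.2)) i‖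
        ≤ (amp h z.1 * (2 * N z.2)) * (amp h z.2 * (2 * (1 + (N (-z.1 - z.2) : ℝ)) *
          amp h (-z.1 - z.2))) := by
          refine mul_le_mul h1 (h2.trans ?_) (norm_nonneg _) (by positivity)
          exact mul_le_mul_of_nonneg_left h3 a2
      _ ≤ (amp h z.1 * (2 * (1 + N z.2))) * (amp h z.2 * (2 * (1 + (N (-z.1 - z.2) : ℝ)) *
          amp h (-z.1 - z.2))) := by
          gcongr
          linarith
      _ = 4 * (1 * (1 + (N z.2 : ℝ)) * (1 + (N (-z.1 - z.2) : ℝ))) *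
          (amp h z.1 * amp h z.2 * amp h (-z.1 - z.2)) := by ring
      _ ≤ 100 * ((1 + (N z.1 : ℝ)) * (1 + (N z.2 : ℝ)) * (1 + (N (-z.1 - z.2) : ℝ))) *
          (amp h z.1 * amp h z.2 * amp h (-z.1 - z.2)) := by
          gcongr
          · norm_num
          · linarith
  · rw [norm_zero]
    positivity

theorem sum_freq_le (k : K3) : Real.sqrt (∑ i, ‖(k i : ℂ)‖ ^ 2) ≤ 2 * (1 + (N k : ℝ)) := by
  have h := len_le' k
  unfold len at h
  refine le_trans (le_of_eq ?_) h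
  congr 1
  refine Finset.sum_congr rfl fun i _ => ?_
  rw [Complex.norm_intCast, sq_abs]

open scoped Classical in
theorem bt_summable (P : K3 × K3 → Prop) {h : Fam} (hr : RapV h) :
    Summable fun z => if P z then bt h z else 0 := by
  refine summable_tri hr.rapR hr.rapR hr.rapR 1 fun z => ?_
  have a1 := amp_nonneg h z.1
  have a2 := amp_nonneg h z.2
  have a3 := amp_nonneg h (-z.1 - z.2)
  have hN : (0 : ℝ) ≤ N z.1 := Nat.cast_nonneg _
  have hN2 : (0 : ℝ) ≤ N z.2 := Nat.cast_nonneg _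
  split_ifs
  · unfold bt
    rw [pow_one, abs_of_nonneg a1, abs_of_nonneg a2, abs_of_nonneg a3]
    have f1 := sum_freq_le z.1
    have h3 := sum_cr_le h (-z.1 - z.2)
    have h1 : ‖∑ j, (z.1 j : ℂ) * h z.2 j‖ ≤ 2 * (1 + (N z.1 : ℝ)) * amp h z.2 :=
      (norm_sum_mul_le _ _).trans (mul_le_mul_of_nonneg_right f1 a2)
    have h2 : ‖∑ i, h z.1 i * cr (-z.1 - z.2) (h (-z.1 - z.2)) i‖
        ≤ amp h z.1 * (2 * (1 + (N (-z.1 - z.2) : ℝ)) * amp h (-z.1 - z.2)) :=
      (norm_sum_mul_le _ _).trans (mul_le_mul_of_nonneg_left h3 a1)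
    have h4 : ‖∑ i, h z.1 i * h z.2 i‖ ≤ amp h z.1 * amp h z.2 := norm_sum_mul_le _ _
    have h5 : ‖∑ i, (z.1 i : ℂ) * cr (-z.1 - z.2) (h (-z.1 - z.2)) i‖
        ≤ 2 * (1 + (N z.1 : ℝ)) * (2 * (1 + (N (-z.1 - z.2) : ℝ)) * amp h (-z.1 - z.2)) :=
      (norm_sum_mul_le _ _).trans (mul_le_mul f1 h3 (Real.sqrt_nonneg _) (by positivity))
    calc ‖(∑ j, (z.1 j : ℂ) * h z.2 j) * (∑ i, h z.1 i * cr (-z.1 - z.2) (h (-z.1 - z.2)) i)
          - (∑ i, h z.1 i * h z.2 i) * ∑ i, (z.1 i : ℂ) * cr (-z.1 - z.2) (h (-z.1 - z.2)) i‖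
        ≤ (2 * (1 + (N z.1 : ℝ)) * amp h z.2) *
          (amp h z.1 * (2 * (1 + (N (-z.1 - z.2) : ℝ)) * amp h (-z.1 - z.2)))
          + (amp h z.1 * amp h z.2) *
          (2 * (1 + (N z.1 : ℝ)) * (2 * (1 + (N (-z.1 - z.2) : ℝ)) * amp h (-z.1 - z.2))) := by
          refine (norm_sub_le _ _).trans ?_
          rw [norm_mul, norm_mul]
          gcongr
      _ = 8 * ((1 + (N z.1 : ℝ)) * 1 * (1 + (N (-z.1 - z.2) : ℝ))) *
          (amp h z.1 * amp h z.2 * amp h (-z.1 - z.2)) := by ring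
      _ ≤ 100 * ((1 + (N z.1 : ℝ)) * (1 + (N z.2 : ℝ)) * (1 + (N (-z.1 - z.2) : ℝ))) *
          (amp h z.1 * amp h z.2 * amp h (-z.1 - z.2)) := by
          gcongr
          · norm_num
          · linarith
  · rw [norm_zero]
    positivity

/-- Conservation of helicity, for each triad: the sums of the production vanish for fields of one
sign of helicity. -/
theorem lt_zero {P : K3 × K3 → Prop} (hP : Sy P) {h : Fam} (hr : RapV h) {c0 : ℂ}
    (he : ∀ k i, (len k : ℂ) * h k i = c0 * cr k (h k) i) : ∑' z, lt P h z = 0 := by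
  classical
  have sA := at_summable P hr
  have sB := bt_summable P hr
  have hsw := (Equiv.prodComm K3 K3)
  have sA' : Summable fun z : K3 × K3 => if P (z.2, z.1) then at' h (z.2, z.1) else 0 :=
    (Equiv.prodComm K3 K3).summable_iff.2 sA
  have sB' : Summable fun z : K3 × K3 => if P (z.2, z.1) then bt h (z.2, z.1) else 0 :=
    (Equiv.prodComm K3 K3).summable_iff.2 sB
  have eA : ∑' z : K3 × K3, (if P (z.2, z.1) then at' h (z.2, z.1) else 0)
      = ∑' z, (if P z then at' h z else 0) :=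
    (Equiv.prodComm K3 K3).tsum_eq (fun z => if P z then at' h z else 0)
  have eB : ∑' z : K3 × K3, (if P (z.2, z.1) then bt h (z.2, z.1) else 0)
      = ∑' z, (if P z then bt h z else 0) :=
    (Equiv.prodComm K3 K3).tsum_eq (fun z => if P z then bt h z else 0)
  have eB3 : ∑' z : K3 × K3, (if P (e3 z) then bt h (e3 z) else 0)
      = ∑' z, (if P z then bt h z else 0) :=
    e3.tsum_eq (fun z => if P z then bt h z else 0)
  have hB : ∑' z, (if P z then bt h z else 0) = 0 := by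
    have e : ∑' z : K3 × K3, (if P (e3 z) then bt h (e3 z) else 0)
        = -∑' z, (if P z then bt h z else 0) := by
      rw [← tsum_neg]
      refine tsum_congr fun z => ?_
      have hz : P (e3 z) ↔ P z := hP.rot' z
      by_cases h0 : P z
      · rw [if_pos h0, if_pos (hz.2 h0), bt_anti]
      · rw [if_neg h0, if_neg fun h => h0 (hz.1 h), neg_zero]
    rw [eB3] at e
    have h2 : (2 : ℂ) * ∑' z, (if P z then bt h z else 0) = 0 := by
      linear_combination e
    simpa using h2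
  have hA : ∑' z, (if P z then at' h z else 0) = 0 := by
    have e : ∑' z, (if P z then at' h z else 0) + ∑' z, (if P z then at' h z else 0)
        = ∑' z, (if P z then bt h z else 0) + ∑' z, (if P z then bt h z else 0) := by
      nth_rewrite 2 [← eA]
      nth_rewrite 2 [← eB]
      rw [← sA.tsum_add sA', ← sB.tsum_add sB']
      refine tsum_congr fun z => ?_
      have hz : P (z.2, z.1) ↔ P z := hP.swap z
      by_cases h0 : P z
      · rw [if_pos h0, if_pos (hz.2 h0), if_pos h0, if_pos (hz.2 h0), at_add]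
      · rw [if_neg h0, if_neg fun h => h0 (hz.1 h), if_neg h0, if_neg fun h => h0 (hz.1 h)]
    rw [hB] at e
    have h2 : (2 : ℂ) * ∑' z, (if P z then at' h z else 0) = 0 := by
      linear_combination e
    simpa using h2
  have e : ∀ z, lt P h z = c0 * (if P z then at' h z else 0) := by
    intro z
    unfold lt
    split_ifs
    · unfold tt at'
      have e1 : (len (-z.1 - z.2) : ℂ) * ∑ i, h z.2 i * h (-z.1 - z.2) i
          = c0 * ∑ i, h z.2 i * cr (-z.1 - z.2) (h (-z.1 - z.2)) i := by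
        rw [Finset.mul_sum, Finset.mul_sum]
        refine Finset.sum_congr rfl fun i _ => ?_
        have := he (-z.1 - z.2) i
        linear_combination h z.2 i * this
      linear_combination (∑ j, h z.1 j * (z.2 j : ℂ)) * e1
    · simp
  rw [tsum_congr e, tsum_mul_left, hA, mul_zero]

theorem hel_zero {P : K3 × K3 → Prop} (hP : Sy P) {c : Fam} (hr : RapV c)
    (hd : ∀ k, ∑ i, (k i : ℂ) * c k i = 0) {σ : ℝ} (hσ : σ ^ 2 = 1) :
    ∑' z, ct P (hel σ c) z = 0 := by
  have h1 := lt_ct hP (hel_rap hσ hr) (hel_div (σ := σ) hd)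
  have h2 := lt_zero hP (hel_rap hσ hr) (c0 := σ * Complex.I) fun k i => hel_eig hσ (hd k) i
  rw [← h1.2, h2, mul_zero]

/-- The production as a sum over triads. -/
theorem prod_eq {φ : K3 → ℝ} (hP : Pol φ) {c : Fam} (h : RapV c)
    (hreal : ∀ k i, c (-k) i = (starRingEnd ℂ) (c k i)) :
    Win.prod φ c = ∑' z : K3 × K3, φ (z.1 + z.2) * (2 * Real.pi * Complex.I * tt c c c z).re := by
  have hw := amp_nonneg c
  have hpair := summable_pair hP h.rapR hw
  have hF : Summable fun p : K3 × K3 => φ p.1 * (tg c p.1 p.2).re := by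
    refine Summable.of_norm_bounded (hpair.mul_left 13) fun p => ?_
    rw [norm_mul, Real.norm_eq_abs, Real.norm_eq_abs]
    have h1 := (Complex.abs_re_le_norm (tg c p.1 p.2)).trans (norm_tg_le' c p.1 p.2)
    calc |φ p.1| * |(tg c p.1 p.2).re|
        ≤ |φ p.1| * (13 * N p.2 * (amp c (p.1 - p.2) * amp c p.2 * amp c p.1)) := by gcongr
      _ = _ := by ring
  have e1 : Win.prod φ c = ∑' p : K3 × K3, φ p.1 * (tg c p.1 p.2).re := by
    rw [hF.tsum_prod]
    unfold Win.prod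
    refine tsum_congr fun k => ?_
    have h6 : ∑' q, φ k * (tg c k q).re = φ k * ∑' q, (tg c k q).re := tsum_mul_left
    show _ = ∑' q, φ k * (tg c k q).re
    rw [h6, (Complex.hasSum_re (hasSum_tg h k)).tsum_eq]
  rw [e1]
  let ρ : K3 × K3 ≃ K3 × K3 :=
    { toFun := fun z => (z.1 + z.2, z.2)
      invFun := fun z => (z.1 - z.2, z.2)
      left_inv := fun z => by simp
      right_inv := fun z => by simp }
  rw [← ρ.tsum_eq]
  refine tsum_congr fun z => ?_
  show φ (z.1 + z.2) * (tg c (z.1 + z.2) z.2).re = _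
  congr 2
  unfold tg tt
  rw [add_sub_cancel_right]
  have e2 : ∀ i, (starRingEnd ℂ) (c (z.1 + z.2) i) = c (-z.1 - z.2) i := by
    intro i
    rw [← hreal, show -(z.1 + z.2) = -z.1 - z.2 by abel]
  simp_rw [e2]
  ring

end

end Pool.Agent.Q63.Hel
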